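import Mathlib

set_option autoImplicit false

/-! # Project LI: linear independence of the zeros and one exponential moment; statements over Mathlib -/

namespace Pool.Agent.N804.LI

open Filter Topology MeasureTheory

/-- the modified Bessel function `I₀` -/
noncomputable def I0 (x : ℝ) : ℝ := ∫ u in (0 : ℝ)..1, Real.exp (x * Real.cos (2 * Real.pi * u))

/-- the mean of `exp (κ P)` over `[0, Y]` -/
noncomputable def EM (P : ℝ → ℝ) (κ Y : ℝ) : ℝ := (1 / Y) * ∫ y in (0 : ℝ)..Y, Real.exp (κ * P y)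

/-- words -/
abbrev Wd (K : Type) : Type := Σ n : ℕ, (Fin n → K)

/-- the weight of a word -/
noncomputable def ww {K : Type} (w : K → ℝ) (κ : ℝ) (p : Wd K) : ℝ :=
  κ ^ p.1 / (p.1).factorial * ∏ i, w (p.2 i)

/-- the sum of the frequencies of a word -/
noncomputable def ws {K : Type} (θ : K → ℝ) (p : Wd K) : ℝ := ∑ i, θ (p.2 i)

/-- balanced words in the letters `i`, `i⁻¹` -/
def Bal {ι : Type} (p : Wd (ι × Bool)) : Prop :=
  ∀ i : ι, Nat.card {j : Fin p.1 // p.2 j = (i, true)} = Nat.card {j : Fin p.1 // p.2 j = (i, false)}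

/-- the signed frequencies -/
noncomputable def sg {ι : Type} (lam : ι → ℝ) (k : ι × Bool) : ℝ := if k.2 then lam k.1 else -lam k.1

open Classical in
/-- LI/EXP: the mean value of the exponential of a trigonometric series -/
def S_EXP : Prop := ∀ (K : Type) (θ w : K → ℝ) (κ : ℝ), 0 ≤ κ → (∀ k, 0 ≤ w k) → Summable w →
  Summable (ww w κ) ∧
  Tendsto (fun Y : ℝ => (1 / (Y : ℂ)) * ∫ y in (0 : ℝ)..Y,
    Complex.exp ((κ : ℂ) * ∑' k, (w k : ℂ) * Complex.exp (((θ k * y : ℝ) : ℂ) * Complex.I))) atTop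
    (𝓝 (∑' p : Wd K, if ws θ p = 0 then (ww w κ p : ℂ) else 0))

open Classical in
/-- LI/BES: the Bessel product -/
def S_BES : Prop := ∀ (ι : Type) (c : ι → ℝ) (κ : ℝ), 0 ≤ κ → (∀ i, 0 ≤ c i) → Summable c →
  HasProd (fun i => I0 (2 * κ * c i))
    (∑' p : Wd (ι × Bool), if Bal p then ww (fun k => c k.1) κ p else 0)

/-- LI/COMB: linear independence and balanced words -/
def S_COMB : Prop := ∀ (ι : Type) (lam : ι → ℝ),
  (∀ p : Wd (ι × Bool), Bal p → ws (sg lam) p = 0) ∧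
  (LinearIndependent ℚ lam ↔ ∀ p : Wd (ι × Bool), ws (sg lam) p = 0 → Bal p)

/-- LI/MEAN: the mean value and its lower bound -/
def S_MEAN : Prop := ∀ (ι : Type) (c lam : ι → ℝ) (κ : ℝ), 0 < κ → (∀ i, 0 < c i) → Summable c →
  Multipliable (fun i => I0 (2 * κ * c i)) ∧ 0 < ∏' i, I0 (2 * κ * c i) ∧
  ∃ E : ℝ, Tendsto (EM (fun y => ∑' i, 2 * c i * Real.cos (lam i * y)) κ) atTop (𝓝 E) ∧
    ∏' i, I0 (2 * κ * c i) ≤ E ∧ (E = ∏' i, I0 (2 * κ * c i) ↔ LinearIndependent ℚ lam)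

/-- LI/LAN: one-sided bounds exclude exponential terms -/
def S_LAN : Prop := ∀ (Z : Type) (z : Z → ℂ) (μ : Z → ℝ) (A : ℂ → ℂ) (P : ℝ → ℝ),
  (∀ k, 0 < μ k) → (∀ k, |(z k).re| ≤ 1) → (∀ R : ℝ, {k | ‖z k‖ ≤ R}.Finite) →
  (Summable fun k => μ k * ‖A (z k)‖) →
  (∀ k, A (z k) ≠ 0) → (∀ k, (z k).im = 0 → 0 < (A (z k)).re ∧ (A (z k)).im = 0) →
  Continuous P →
  Tendsto (fun y : ℝ => (P y : ℂ) - ∑' k, μ k * A (z k) * Complex.exp (z k * y)) atTop (𝓝 0) →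
  (∃ C : ℝ, ∀ Y : ℝ, 1 ≤ Y → ∫ y in (0 : ℝ)..Y, max (P y) 0 ≤ C * Y) →
  ∀ k, (z k).re ≤ 0

/-- LI/PERT: errors tending to zero do not matter -/
def S_PERT : Prop := ∀ (P F : ℝ → ℝ) (κ E B : ℝ), Continuous P → Continuous F → (∀ y, |F y| ≤ B) →
  Tendsto (fun y => P y - F y) atTop (𝓝 0) → Tendsto (EM F κ) atTop (𝓝 E) → Tendsto (EM P κ) atTop (𝓝 E)

/-- Gaussian density -/
noncomputable def gs (ε v : ℝ) : ℝ :=
  Real.exp (-(v ^ 2 / (2 * ε ^ 2))) / (ε * Real.sqrt (2 * Real.pi))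

open Classical in
/-- the total weight at the centre -/
noncomputable def m0 {K : Type} (ρ : K → ℂ) (μ : K → ℝ) : ℝ := ∑' k, if ρ k = 1 / 2 then μ k else 0

/-- the bound: the value for independent phases -/
noncomputable def RH0 {K : Type} (ρ : K → ℂ) (μ : K → ℝ) (ε κ m : ℝ) : ℝ := Real.exp (κ * m) *
  ∏' k : {k // 0 < (ρ k).im}, I0 (2 * κ * (μ k * Real.exp (-(ε ^ 2 * (ρ k).im ^ 2 / 2))))

/-- LI/ABS: the abstract theorem; `ρ k` runs through the zeros, closed under complex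
conjugation and `ρ ↦ 1 - conj ρ` -/
def S_ABS : Prop := ∀ (K : Type) (ρ : K → ℂ) (μ : K → ℝ) (bar : K → K) (P : ℝ → ℝ) (ε κ : ℝ), 0 < ε → 0 < κ →
  (∀ k, 0 < μ k) → (∀ k, bar (bar k) = k) → (∀ k, μ (bar k) = μ k) →
  (∀ k, ρ (bar k) = (starRingEnd ℂ) (ρ k)) →
  (∀ k, ∃ l, ρ l = 1 - (starRingEnd ℂ) (ρ k)) → (∀ k, |(ρ k).re - 1 / 2| ≤ 1) →
  (∀ R : ℝ, {k | ‖ρ k‖ ≤ R}.Finite) →
  (Summable fun k => μ k * Real.exp (-(ε ^ 2 * (ρ k).im ^ 2 / 2))) → Continuous P →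
  Tendsto (fun y : ℝ => (P y : ℂ) -
    ∑' k, μ k * Complex.exp ((ρ k - 1 / 2) * y + ε ^ 2 * (ρ k - 1 / 2) ^ 2 / 2)) atTop (𝓝 0) →
  (∀ m : ℝ, m ≤ m0 ρ μ →
    (((∀ k, (ρ k).re = 1 / 2) ∧ LinearIndependent ℚ (fun k : {k // 0 < (ρ k).im} => (ρ k).im) ∧ m0 ρ μ = m) ↔
      ∀ δ : ℝ, 0 < δ → ∀ᶠ Y in atTop, EM P κ Y ≤ RH0 ρ μ ε κ m + δ)) ∧
  ((∀ k, (ρ k).re = 1 / 2) → LinearIndependent ℚ (fun k : {k // 0 < (ρ k).im} => (ρ k).im) →
    Tendsto (EM P κ) atTop (𝓝 (RH0 ρ μ ε κ (m0 ρ μ))))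

end Pool.Agent.N804.LI
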