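import Pool.Agent.Y23.G.An5
import Pool.Agent.N804.LI.Stm

set_option autoImplicit false

/-! # Project LI: the explicit formula and Dirichlet characters; statements -/

namespace Pool.Agent.N804.LI

open Filter Topology MeasureTheory
open Pool.Agent.Y23.G (LFun aL)

/-- the zeros of a function, with multiplicity -/
abbrev Zr (X : ℂ → ℂ) : Type := Σ s : {s : ℂ // X s = 0}, Fin (analyticOrderNatAt X (s : ℂ))

/-- the zero -/
def zv {X : ℂ → ℂ} (k : Zr X) : ℂ := (k.1 : ℂ)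

/-- the sum over the primes with Gaussian weights -/
noncomputable def PL (L : LFun) (ε y : ℝ) : ℂ :=
  (L.r : ℂ) * Real.exp (y / 2 + ε ^ 2 / 8) - ∑' n : ℕ, aL (L := L) n * (gs ε (y - Real.log n) : ℂ)

/-- LI/EF: the explicit formula with a Gaussian -/
def S_EF : Prop := ∀ (L : LFun) (ε : ℝ), 0 < ε →
  Continuous (PL L ε) ∧ (Summable fun k : Zr L.X => Real.exp (-(ε ^ 2 * (zv k).im ^ 2 / 2))) ∧
  Tendsto (fun y : ℝ => PL L ε y -
    ∑' k : Zr L.X, Complex.exp ((zv k - 1 / 2) * y + ε ^ 2 * (zv k - 1 / 2) ^ 2 / 2)) atTop (𝓝 0)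

/-- LI/ZR: the zeros -/
def S_ZR : Prop := ∀ (L : LFun), (∀ s, L.X s = 0 → 0 < analyticOrderNatAt L.X s) ∧
  (∀ k : Zr L.X, ∃ l : Zr L.X, zv l = 1 - (starRingEnd ℂ) (zv k)) ∧
  (∀ k : Zr L.X, |(zv k).re - 1 / 2| ≤ 1) ∧ (∀ R : ℝ, {k : Zr L.X | ‖zv k‖ ≤ R}.Finite)

/-- LI/DIR: the L-functions of the characters modulo `q` -/
def S_DIR : Prop := ∀ (q : ℕ) [NeZero q] (χ : DirichletCharacter ℂ q), ∃ L : LFun,
  (∀ s : ℂ, 0 < s.re → s.re < 1 →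
    analyticOrderNatAt L.X s = analyticOrderNatAt (DirichletCharacter.LFunction χ) s) ∧
  (∀ s : ℂ, 0 < s.re → s.re < 1 → (L.X s = 0 ↔ DirichletCharacter.LFunction χ s = 0)) ∧
  (∀ s : ℂ, L.X s = 0 → 0 < s.re ∧ s.re < 1) ∧
  ((χ = 1 → L.r = 1) ∧ (χ ≠ 1 → L.r = 0)) ∧ (∀ n : ℕ, n ≠ 0 → n.Coprime q → L.c n = χ (n : ZMod q)) ∧
  (∀ n : ℕ, ‖L.c n‖ ≤ 1)

/-- LI/CJ: conjugate zeros -/
def S_CJ : Prop := ∀ (q : ℕ) [NeZero q] (χ : DirichletCharacter ℂ q) (s : ℂ), 0 < s.re → s.re < 1 →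
  (DirichletCharacter.LFunction χ⁻¹ ((starRingEnd ℂ) s) = 0 ↔ DirichletCharacter.LFunction χ s = 0) ∧
  analyticOrderNatAt (DirichletCharacter.LFunction χ⁻¹) ((starRingEnd ℂ) s) =
    analyticOrderNatAt (DirichletCharacter.LFunction χ) s

open Classical in
/-- LI/DP: the primes congruent to one modulo `q` -/
def S_DP : Prop := ∀ (q : ℕ) [NeZero q] (c : DirichletCharacter ℂ q → ℕ → ℂ) (ε : ℝ), 0 < ε →
  (∀ χ n, n ≠ 0 → n.Coprime q → c χ n = χ (n : ZMod q)) → (∀ χ n, ‖c χ n‖ ≤ 1) →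
  Continuous (fun y : ℝ => ∑' n : ℕ, if (n : ZMod q) = 1 then
      (ArithmeticFunction.vonMangoldt n / Real.sqrt n) * gs ε (y - Real.log n) else 0) ∧
  Tendsto (fun y : ℝ => (∑ χ : DirichletCharacter ℂ q, ∑' n : ℕ,
      ((ArithmeticFunction.vonMangoldt n / Real.sqrt n : ℝ) : ℂ) * c χ n * (gs ε (y - Real.log n) : ℂ)) -
    (q.totient : ℂ) * ((∑' n : ℕ, if (n : ZMod q) = 1 then
      (ArithmeticFunction.vonMangoldt n / Real.sqrt n) * gs ε (y - Real.log n) else 0 : ℝ) : ℂ)) atTop (𝓝 0)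

end Pool.Agent.N804.LI
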