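import Pool.Agent.N804.LI.Stm

set_option autoImplicit false

/-! # Project LI: the abstract theorem -/

namespace Pool.Agent.N804.LI

open Filter Topology MeasureTheory Set
open scoped ComplexConjugate

/-- the bound on the exponential moment bounds the positive part -/
lemma pos_bd {P : ℝ → ℝ} (hP : Continuous P) {κ B : ℝ} (hκ : 0 < κ) (h : ∀ᶠ Y in atTop, EM P κ Y ≤ B) :
    ∃ C : ℝ, ∀ Y : ℝ, 1 ≤ Y → ∫ y in (0 : ℝ)..Y, max (P y) 0 ≤ C * Y := by
  obtain ⟨Y0, hY0⟩ := eventually_atTop.1 h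
  set Y1 : ℝ := max Y0 1 with hY1
  have hY1' : 1 ≤ Y1 := le_max_right _ _
  have hce : Continuous (fun y => Real.exp (κ * P y)) := by fun_prop
  have hcm : Continuous (fun y => max (P y) 0) := by fun_prop
  have hI : ∀ Y, Y1 ≤ Y → ∫ y in (0 : ℝ)..Y, Real.exp (κ * P y) ≤ B * Y := by
    intro Y hY
    have h1 := hY0 Y (le_trans (le_max_left _ _) hY)
    unfold EM at h1
    have hYp : 0 < Y := by linarith
    rw [one_div, inv_mul_le_iff₀ hYp] at h1
    linarith
  have hnn : ∀ Y, 0 ≤ Y → 0 ≤ ∫ y in (0 : ℝ)..Y, Real.exp (κ * P y) := fun Y hY =>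
    intervalIntegral.integral_nonneg hY fun _ _ => (Real.exp_pos _).le
  have hB : 0 ≤ B := by
    have h1 := hI Y1 le_rfl
    have h2 := hnn Y1 (by linarith)
    by_contra hcon
    push Not at hcon
    nlinarith
  have hE : ∀ Y, 1 ≤ Y → ∫ y in (0 : ℝ)..Y, Real.exp (κ * P y) ≤ (B * Y1) * Y := by
    intro Y hY
    rcases le_total Y1 Y with h1 | h1
    · refine (hI Y h1).trans ?_
      have : B * Y ≤ B * (Y1 * Y) := mul_le_mul_of_nonneg_left (by nlinarith) hB
      linarith [mul_assoc B Y1 Y]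
    · have h2 : ∫ y in (0 : ℝ)..Y, Real.exp (κ * P y) ≤ ∫ y in (0 : ℝ)..Y1, Real.exp (κ * P y) := by
        rw [← intervalIntegral.integral_add_adjacent_intervals (b := Y) (c := Y1)
          (hce.intervalIntegrable 0 Y) (hce.intervalIntegrable Y Y1)]
        have := intervalIntegral.integral_nonneg (μ := volume) (f := fun y => Real.exp (κ * P y)) h1
          fun _ _ => (Real.exp_pos _).le
        linarith
      have h3 := hI Y1 le_rfl
      have h4 : B * Y1 ≤ B * Y1 * Y := by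
        have : 0 ≤ B * Y1 := by positivity
        nlinarith
      linarith
  refine ⟨B * Y1 / κ, fun Y hY => ?_⟩
  have h1 : ∫ y in (0 : ℝ)..Y, max (P y) 0 ≤ ∫ y in (0 : ℝ)..Y, Real.exp (κ * P y) / κ := by
    refine intervalIntegral.integral_mono_on (by linarith) (hcm.intervalIntegrable _ _)
      ((hce.div_const κ).intervalIntegrable _ _) fun y _ => ?_
    rw [le_div_iff₀ hκ]
    rcases le_total (P y) 0 with h2 | h2
    · rw [max_eq_right h2, zero_mul]; exact (Real.exp_pos _).le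
    · rw [max_eq_left h2]
      have := Real.add_one_le_exp (κ * P y)
      nlinarith
  refine h1.trans ?_
  rw [intervalIntegral.integral_div, div_mul_eq_mul_div]
  exact div_le_div_of_nonneg_right (hE Y hY) hκ.le

section
variable {K : Type} {ρ : K → ℂ} {μ : K → ℝ} {bar : K → K} {ε : ℝ}

/-- the coefficient -/
noncomputable def cf (ρ : K → ℂ) (μ : K → ℝ) (ε : ℝ) (k : K) : ℝ := μ k * Real.exp (-(ε ^ 2 * (ρ k).im ^ 2 / 2))

/-- the term of a zero on the line -/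
lemma term_line {k : K} (h : (ρ k).re = 1 / 2) (y : ℝ) :
    (μ k : ℂ) * Complex.exp ((ρ k - 1 / 2) * y + ε ^ 2 * (ρ k - 1 / 2) ^ 2 / 2) =
      (cf ρ μ ε k : ℂ) * Complex.exp (((ρ k).im * y : ℝ) * Complex.I) := by
  have e : ρ k - 1 / 2 = ((ρ k).im : ℂ) * Complex.I := by
    apply Complex.ext
    · simp [h]
    · simp
  rw [e, Complex.exp_add, cf]
  have e2 : (ε : ℂ) ^ 2 * (((ρ k).im : ℂ) * Complex.I) ^ 2 / 2 = ((-(ε ^ 2 * (ρ k).im ^ 2 / 2) : ℝ) : ℂ) := by
    rw [mul_pow, Complex.I_sq]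
    push_cast
    ring
  rw [e2, ← Complex.ofReal_exp]
  push_cast
  ring_nf

/-- the sum over the zeros on the line -/
lemma sum_line (hbb : ∀ k, bar (bar k) = k) (hμb : ∀ k, μ (bar k) = μ k)
    (hρb : ∀ k, ρ (bar k) = conj (ρ k)) (hRH : ∀ k, (ρ k).re = 1 / 2)
    (hs : Summable (cf ρ μ ε)) (hc0 : ∀ k, 0 ≤ cf ρ μ ε k) (y : ℝ) :
    ∑' k, (μ k : ℂ) * Complex.exp ((ρ k - 1 / 2) * y + ε ^ 2 * (ρ k - 1 / 2) ^ 2 / 2) =
      ((m0 ρ μ + ∑' k : {k // 0 < (ρ k).im}, 2 * cf ρ μ ε k * Real.cos ((ρ k).im * y) : ℝ) : ℂ) := by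
  classical
  have e0 : (fun k => (μ k : ℂ) * Complex.exp ((ρ k - 1 / 2) * y + ε ^ 2 * (ρ k - 1 / 2) ^ 2 / 2)) =
      fun k => (cf ρ μ ε k : ℂ) * Complex.exp (((ρ k).im * y : ℝ) * Complex.I) :=
    funext fun k => term_line (hRH k) y
  rw [e0]
  set a : K → ℂ := fun k => (cf ρ μ ε k : ℂ) * Complex.exp (((ρ k).im * y : ℝ) * Complex.I) with ha
  have hcb : ∀ k, cf ρ μ ε (bar k) = cf ρ μ ε k := fun k => by
    unfold cf; rw [hμb, hρb]; simp
  have hn : ∀ k, ‖a k‖ = cf ρ μ ε k := fun k => by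
    simp only [ha]
    rw [norm_mul, Complex.norm_exp_ofReal_mul_I, mul_one, Complex.norm_real, Real.norm_of_nonneg (hc0 k)]
  have has : Summable a := Summable.of_norm (by simpa only [hn] using hs)
  have hind : ∀ s : Set K, Summable (s.indicator a) := fun s => has.indicator s
  -- split
  have e1 : a = fun k => ({k | (ρ k).im = 0}.indicator a k + {k | 0 < (ρ k).im}.indicator a k) +
      {k | (ρ k).im < 0}.indicator a k := by
    funext k
    simp only [Set.indicator_apply, Set.mem_ofPred_eq]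
    rcases lt_trichotomy (ρ k).im 0 with h | h | h
    · rw [if_neg (ne_of_lt h), if_neg (not_lt.2 h.le), if_pos h]; simp
    · rw [if_pos h, if_neg (by rw [h]; exact lt_irrefl _), if_neg (by rw [h]; exact lt_irrefl _)]; simp
    · rw [if_neg (ne_of_gt h), if_pos h, if_neg (not_lt.2 h.le)]; simp
  have e2 : ∑' k, a k = (∑' k, {k | (ρ k).im = 0}.indicator a k + ∑' k, {k | 0 < (ρ k).im}.indicator a k) +
      ∑' k, {k | (ρ k).im < 0}.indicator a k := by
    conv_lhs => rw [e1]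
    rw [((hind _).add (hind _)).tsum_add (hind _), (hind _).tsum_add (hind _)]
  -- the negative part
  let be : K ≃ K := ⟨bar, bar, hbb, hbb⟩
  have e3 : ∑' k, {k | (ρ k).im < 0}.indicator a k = ∑' k, {k | 0 < (ρ k).im}.indicator (fun k => a (bar k)) k := by
    rw [← be.tsum_eq]
    refine tsum_congr fun k => ?_
    simp only [Set.indicator_apply, Set.mem_ofPred_eq]
    show (if (ρ (bar k)).im < 0 then a (bar k) else 0) = _
    rw [hρb, Complex.conj_im]
    simp only [neg_lt_zero]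
  have hbs : Summable (fun k => a (bar k)) := be.summable_iff.2 has
  have e4 : ∑' k, {k | (ρ k).im = 0}.indicator a k = ((m0 ρ μ : ℝ) : ℂ) := by
    unfold m0
    rw [Complex.ofReal_tsum]
    refine tsum_congr fun k => ?_
    simp only [Set.indicator_apply, Set.mem_ofPred_eq]
    have hiff : (ρ k).im = 0 ↔ ρ k = 1 / 2 := by
      constructor
      · intro h
        apply Complex.ext
        · simp [hRH k]
        · simp [h]
      · intro h; rw [h]; simp
    by_cases h : (ρ k).im = 0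
    · rw [if_pos h, if_pos (hiff.1 h)]
      simp only [ha, cf, h]
      simp
    · rw [if_neg h, if_neg (fun h2 => h (hiff.2 h2))]
      simp
  rw [e2, e3, e4, add_assoc, ← (hind _).tsum_add (hbs.indicator _), Complex.ofReal_add, Complex.ofReal_tsum]
  congr 1
  have e5 : (fun k => {k | 0 < (ρ k).im}.indicator a k + {k | 0 < (ρ k).im}.indicator (fun k => a (bar k)) k) =
      {k | 0 < (ρ k).im}.indicator (fun k => a k + a (bar k)) := by
    funext k
    simp only [Set.indicator_apply]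
    split_ifs <;> simp
  rw [e5, ← tsum_subtype {k | 0 < (ρ k).im} (fun k => a k + a (bar k))]
  refine tsum_congr fun k => ?_
  simp only [ha]
  rw [hcb, hρb, Complex.conj_im]
  push_cast
  rw [← mul_add, Complex.cos]
  ring_nf

/-- the main term -/
noncomputable def FF (ρ : K → ℂ) (μ : K → ℝ) (ε y : ℝ) : ℝ :=
  ∑' k : {k // 0 < (ρ k).im}, 2 * cf ρ μ ε k * Real.cos ((ρ k).im * y)

end

lemma em_const {F : ℝ → ℝ} (m κ Y : ℝ) : EM (fun y => m + F y) κ Y = Real.exp (κ * m) * EM F κ Y := by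
  unfold EM
  have h : (fun y => Real.exp (κ * (m + F y))) = fun y => Real.exp (κ * m) * Real.exp (κ * F y) := by
    funext y
    rw [← Real.exp_add]
    ring_nf
  rw [h, intervalIntegral.integral_const_mul]
  ring

/-- the hypotheses of the abstract theorem -/
structure Hyp {K : Type} (ρ : K → ℂ) (μ : K → ℝ) (bar : K → K) (P : ℝ → ℝ) (ε : ℝ) : Prop where
  pos : ∀ k, 0 < μ k
  inv : ∀ k, bar (bar k) = k
  mub : ∀ k, μ (bar k) = μ k
  rb : ∀ k, ρ (bar k) = conj (ρ k)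
  refl : ∀ k, ∃ l, ρ l = 1 - conj (ρ k)
  str : ∀ k, |(ρ k).re - 1 / 2| ≤ 1
  fin : ∀ R : ℝ, {k | ‖ρ k‖ ≤ R}.Finite
  sum : Summable fun k => μ k * Real.exp (-(ε ^ 2 * (ρ k).im ^ 2 / 2))
  cont : Continuous P
  lim : Tendsto (fun y : ℝ => (P y : ℂ) -
    ∑' k, μ k * Complex.exp ((ρ k - 1 / 2) * y + ε ^ 2 * (ρ k - 1 / 2) ^ 2 / 2)) atTop (𝓝 0)

/-- a bounded exponential moment implies the Riemann Hypothesis -/
theorem Hyp.grh (hL : S_LAN) {K : Type} {ρ : K → ℂ} {μ : K → ℝ} {bar : K → K} {P : ℝ → ℝ} {ε κ : ℝ} (hκ : 0 < κ)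
    (H : Hyp ρ μ bar P ε) (hB : ∃ B : ℝ, ∀ᶠ Y in atTop, EM P κ Y ≤ B) : ∀ k, (ρ k).re = 1 / 2 := by
  obtain ⟨hμ, hbb, hμb, hρb, hrefl, hstr, hfin, hsum, hPc, hlim⟩ := H
  have hs : Summable (cf ρ μ ε) := hsum
  obtain ⟨B, hB⟩ := hB
  have hle := hL K (fun k => ρ k - 1 / 2) μ (fun z => Complex.exp (ε ^ 2 * z ^ 2 / 2)) P hμ
    (fun k => by simpa using hstr k) (fun R => ?_) ?_ (fun k => Complex.exp_ne_zero _) (fun k hk => ?_) hPc ?_
    (pos_bd hPc hκ hB)
  · have h1 : ∀ k, (ρ k).re ≤ 1 / 2 := fun k => by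
      have := hle k
      simp at this
      linarith
    intro k
    obtain ⟨l, hl⟩ := hrefl k
    have h2 := h1 l
    rw [hl] at h2
    simp at h2
    linarith [h1 k]
  · refine (hfin (R + 1)).subset fun k hk => ?_
    simp only [Set.mem_ofPred_eq] at hk ⊢
    have h1 : ρ k = (ρ k - 1 / 2) + 1 / 2 := by ring
    rw [h1]
    refine (norm_add_le _ _).trans ?_
    have : ‖(1 / 2 : ℂ)‖ ≤ 1 := by norm_num
    linarith
  · refine Summable.of_nonneg_of_le (fun k => mul_nonneg (hμ k).le (norm_nonneg _)) (fun k => ?_)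
      (hs.mul_left (Real.exp (ε ^ 2 / 2)))
    unfold cf
    rw [mul_left_comm]
    refine mul_le_mul_of_nonneg_left ?_ (hμ k).le
    rw [Complex.norm_exp, ← Real.exp_add]
    refine Real.exp_le_exp.2 ?_
    have h1 := abs_le.1 (hstr k)
    have e1 : ((ε : ℂ) ^ 2 * (ρ k - 1 / 2) ^ 2 / 2).re = ε ^ 2 * (((ρ k).re - 1 / 2) ^ 2 - (ρ k).im ^ 2) / 2 := by
      have e2 : ((ε : ℂ) ^ 2 * (ρ k - 1 / 2) ^ 2 / 2) = (((ε ^ 2 / 2 : ℝ)) : ℂ) * (ρ k - 1 / 2) ^ 2 := by
        push_cast; ring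
      rw [e2, Complex.re_ofReal_mul, sq (ρ k - 1 / 2), Complex.mul_re]
      simp
      ring
    rw [e1]
    have h3 : ((ρ k).re - 1 / 2) ^ 2 ≤ 1 := by nlinarith [h1.1, h1.2]
    have h4 : 0 ≤ ε ^ 2 := sq_nonneg ε
    nlinarith
  · have e : ((ρ k - 1 / 2 : ℂ)) = (((ρ k).re - 1 / 2 : ℝ) : ℂ) := by
      have h1 : (ρ k).im = 0 := by simpa using hk
      apply Complex.ext
      · simp
      · simp [h1]
    have e2 : ((ε : ℂ) ^ 2 * (ρ k - 1 / 2) ^ 2 / 2) = ((ε ^ 2 * ((ρ k).re - 1 / 2) ^ 2 / 2 : ℝ) : ℂ) := by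
      rw [e]; push_cast; ring
    rw [e2, ← Complex.ofReal_exp]
    exact ⟨by rw [Complex.ofReal_re]; exact Real.exp_pos _, Complex.ofReal_im _⟩
  · refine hlim.congr fun y => ?_
    congr 1
    refine tsum_congr fun k => ?_
    rw [Complex.exp_add]
    ring

theorem abs_main (hM : S_MEAN) (hL : S_LAN) (hP : S_PERT) : S_ABS := by
  intro K ρ μ bar P ε κ hε hκ hμ hbb hμb hρb hrefl hstr hfin hsum hPc hlim
  have hc0 : ∀ k, 0 < cf ρ μ ε k := fun k => mul_pos (hμ k) (Real.exp_pos _)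
  have hs : Summable (cf ρ μ ε) := hsum
  set c : {k // 0 < (ρ k).im} → ℝ := fun k => cf ρ μ ε k with hc
  have hcs : Summable c := hs.subtype _
  -- the line case
  have key : (∀ k, (ρ k).re = 1 / 2) → ∃ E : ℝ, Tendsto (EM P κ) atTop (𝓝 (Real.exp (κ * m0 ρ μ) * E)) ∧
      0 < ∏' i, I0 (2 * κ * c i) ∧ ∏' i, I0 (2 * κ * c i) ≤ E ∧
      (E = ∏' i, I0 (2 * κ * c i) ↔ LinearIndependent ℚ (fun k : {k // 0 < (ρ k).im} => (ρ k).im)) := by
    intro hRH
    obtain ⟨-, hpos, E, hE1, hE2, hE3⟩ := hM {k // 0 < (ρ k).im} c (fun k => (ρ k).im) κ hκ (fun i => hc0 i) hcs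
    refine ⟨E, ?_, hpos, hE2, hE3⟩
    have hFs : Summable (fun i => 2 * c i) := hcs.mul_left 2
    have hb : ∀ (i : {k // 0 < (ρ k).im}) (y : ℝ), ‖2 * c i * Real.cos ((ρ i).im * y)‖ ≤ 2 * c i := by
      intro i y
      have h1 : 0 ≤ 2 * c i := by have := hc0 i; simp only [hc]; linarith
      rw [norm_mul, Real.norm_of_nonneg h1, Real.norm_eq_abs]
      have := Real.abs_cos_le_one ((ρ i).im * y)
      nlinarith
    have hFc : Continuous (fun y : ℝ => ∑' i, 2 * c i * Real.cos ((ρ i).im * y)) := by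
      refine continuous_tsum (fun i => by fun_prop) hFs fun i y => hb i y
    have hFb : ∀ y : ℝ, |∑' i, 2 * c i * Real.cos ((ρ i).im * y)| ≤ ∑' i, 2 * c i := fun y => by
      rw [← Real.norm_eq_abs]
      exact tsum_of_norm_bounded hFs.hasSum fun i => hb i y
    refine hP P (fun y => m0 ρ μ + ∑' i, 2 * c i * Real.cos ((ρ i).im * y)) κ _ (|m0 ρ μ| + ∑' i, 2 * c i) hPc
      (by fun_prop) (fun y => (abs_add_le _ _).trans (by have := hFb y; linarith)) ?_ ?_
    · have h1 : Tendsto (fun y : ℝ => ((P y : ℂ) -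
          ∑' k, μ k * Complex.exp ((ρ k - 1 / 2) * y + ε ^ 2 * (ρ k - 1 / 2) ^ 2 / 2)).re) atTop (𝓝 0) := by
        have := (Complex.continuous_re.tendsto _).comp hlim
        rw [Complex.zero_re] at this
        exact this
      refine h1.congr fun y => ?_
      rw [sum_line hbb hμb hρb hRH hs (fun k => (hc0 k).le) y, ← Complex.ofReal_sub, Complex.ofReal_re]
    · have h1 := hE1.const_mul (Real.exp (κ * m0 ρ μ))
      refine h1.congr fun Y => ?_
      rw [em_const]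
  -- GRH from an upper bound
  have grh : (∃ B : ℝ, ∀ᶠ Y in atTop, EM P κ Y ≤ B) → ∀ k, (ρ k).re = 1 / 2 :=
    Hyp.grh hL hκ ⟨hμ, hbb, hμb, hρb, hrefl, hstr, hfin, hsum, hPc, hlim⟩
  refine ⟨fun m hm => ⟨?_, fun h => ?_⟩, fun hRH hLI => ?_⟩
  · rintro ⟨hRH, hLI, hmm⟩ δ hδ
    obtain ⟨E, h1, -, -, h3⟩ := key hRH
    rw [h3.2 hLI, hmm] at h1
    have h4 : RH0 ρ μ ε κ m < RH0 ρ μ ε κ m + δ := by linarith
    exact (h1.eventually (eventually_lt_nhds (show _ < _ from h4))).mono fun Y hY => le_of_lt hY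
  · have hRH := grh ⟨_, h 1 one_pos⟩
    obtain ⟨E, h1, hpos, h2, h3⟩ := key hRH
    have h4 : Real.exp (κ * m0 ρ μ) * E ≤ Real.exp (κ * m) * ∏' i, I0 (2 * κ * c i) := by
      refine le_of_forall_pos_le_add fun δ hδ => ?_
      exact le_of_tendsto h1 (h δ hδ)
    have h5 : Real.exp (κ * m0 ρ μ) * (∏' i, I0 (2 * κ * c i)) ≤ Real.exp (κ * m) * ∏' i, I0 (2 * κ * c i) :=
      (mul_le_mul_of_nonneg_left h2 (Real.exp_pos _).le).trans h4
    have h6 : Real.exp (κ * m0 ρ μ) ≤ Real.exp (κ * m) := le_of_mul_le_mul_right h5 hpos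
    have h7 : m0 ρ μ ≤ m := by
      have := Real.exp_le_exp.1 h6
      exact le_of_mul_le_mul_left this hκ
    have h8 : m0 ρ μ = m := le_antisymm h7 hm
    refine ⟨hRH, h3.1 ?_, h8⟩
    rw [h8] at h4
    exact le_antisymm (le_of_mul_le_mul_left h4 (Real.exp_pos _)) h2
  · obtain ⟨E, h1, -, -, h3⟩ := key hRH
    rw [h3.2 hLI] at h1
    exact h1

end Pool.Agent.N804.LI
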