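import Pool.Agent.N804.LI.Zeta

set_option autoImplicit false

/-! # Project LI: Dirichlet characters -/

namespace Pool.Agent.N804.LI

open Filter Topology MeasureTheory Set
open scoped ComplexConjugate
open Pool.Agent.Y23.G (LFun aL)

section
variable {I : Type} {p : I → ℂ → Prop} {n : I → ℂ → ℕ} {d : I → I} {L : I → LFun}

lemma n_pos (hZR : S_ZR) (H : FD p n d L) {i : I} {s : ℂ} (h : p i s) : 0 < n i s := by
  rw [H.o _ _ h]
  exact (hZR (L i)).1 _ ((H.z _ _).2 h)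

variable [Fintype I]

open Classical in
lemma m0_kk (hZR : S_ZR) (H : FD p n d L) : m0 (fun k : KK p n => (k.2.1 : ℂ)) (fun _ => 1) =
    ∑ i, (if p i (1 / 2) then (n i (1 / 2) : ℝ) else 0) := by
  unfold m0
  have hfin : {k : KK p n | ‖(k.2.1 : ℂ)‖ ≤ 1}.Finite := (fin_all (L := L) hZR 1).preimage (kke H).injective.injOn
  have hs : Summable (fun k : KK p n => if (k.2.1 : ℂ) = 1 / 2 then (1 : ℝ) else 0) := by
    refine summable_of_hasFiniteSupport (hfin.subset fun k hk => ?_)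
    by_contra hcon
    apply hk
    refine if_neg fun h => hcon ?_
    show ‖(k.2.1 : ℂ)‖ ≤ 1
    rw [h]; norm_num
  refine (Summable.tsum_sigma hs).trans ?_
  rw [tsum_fintype]
  refine Finset.sum_congr rfl fun i _ => ?_
  refine (Summable.tsum_sigma (hs.sigma_factor i)).trans ?_
  by_cases h : p i (1 / 2)
  · rw [if_pos h, tsum_eq_single (⟨1 / 2, h⟩ : {s : ℂ // p i s})]
    · refine (tsum_congr fun j => if_pos rfl).trans ?_
      rw [tsum_fintype, Finset.sum_const, Finset.card_univ, Fintype.card_fin, nsmul_eq_mul, mul_one]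
    · intro s hs
      refine (tsum_congr fun j => if_neg fun h1 => hs (Subtype.ext h1)).trans tsum_zero
  · rw [if_neg h]
    refine (tsum_congr fun s => ?_).trans tsum_zero
    refine (tsum_congr fun j => if_neg fun h1 => h ?_).trans tsum_zero
    have := s.2
    rwa [show (s : ℂ) = 1 / 2 from h1] at this

end

section
variable (q : ℕ) [NeZero q]

/-- nontrivial zeros -/
def IX (χ : DirichletCharacter ℂ q) (s : ℂ) : Prop :=
  DirichletCharacter.LFunction χ s = 0 ∧ 0 < s.re ∧ s.re < 1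

/-- the multiplicity -/
noncomputable def mx (χ : DirichletCharacter ℂ q) (s : ℂ) : ℕ :=
  analyticOrderNatAt (DirichletCharacter.LFunction χ) s

/-- the sum over the primes congruent to one -/
noncomputable def PX (ε y : ℝ) : ℝ :=
  Real.exp (y / 2 + ε ^ 2 / 8) - q.totient * ∑' n : ℕ, if (n : ZMod q) = 1 then
    (ArithmeticFunction.vonMangoldt n / Real.sqrt n) * gs ε (y - Real.log n) else 0

lemma dir_fd (hD : S_DIR) (hC : S_CJ) : ∃ L : DirichletCharacter ℂ q → LFun,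
    FD (IX q) (mx q) (fun χ => χ⁻¹) L ∧ (∀ χ, (χ = 1 → (L χ).r = 1) ∧ (χ ≠ 1 → (L χ).r = 0)) ∧
    (∀ χ, ∀ n : ℕ, n ≠ 0 → n.Coprime q → (L χ).c n = χ (n : ZMod q)) ∧ ∀ χ, ∀ n : ℕ, ‖(L χ).c n‖ ≤ 1 := by
  choose L h1 h2 h3 h4 h5 h6 using hD q
  refine ⟨L, ⟨fun χ => inv_inv χ, fun χ s => ⟨fun h => ?_, fun h => ?_⟩, fun χ s hs => ?_, fun χ s hs => ?_,
    fun χ s hs => ?_⟩, h4, h5, h6⟩
  · obtain ⟨a, b⟩ := h3 χ s h
    exact ⟨(h2 χ s a b).1 h, a, b⟩
  · exact (h2 χ s h.2.1 h.2.2).2 h.1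
  · exact (h1 χ s hs.2.1 hs.2.2).symm
  · refine ⟨((hC q χ s hs.2.1 hs.2.2).1).2 hs.1, ?_, ?_⟩
    · rw [Complex.conj_re]; exact hs.2.1
    · rw [Complex.conj_re]; exact hs.2.2
  · exact (hC q χ s hs.2.1 hs.2.2).2

lemma dir_PL (hDP : S_DP) {L : DirichletCharacter ℂ q → LFun}
    (h4 : ∀ χ, (χ = 1 → (L χ).r = 1) ∧ (χ ≠ 1 → (L χ).r = 0))
    (h5 : ∀ χ, ∀ n : ℕ, n ≠ 0 → n.Coprime q → (L χ).c n = χ (n : ZMod q)) (h6 : ∀ χ, ∀ n : ℕ, ‖(L χ).c n‖ ≤ 1)
    {ε : ℝ} (hε : 0 < ε) :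
    Continuous (PX q ε) ∧ Tendsto (fun y : ℝ => (PX q ε y : ℂ) - ∑ χ, PL (L χ) ε y) atTop (𝓝 0) := by
  classical
  obtain ⟨h7, h8⟩ := hDP q (fun χ n => (L χ).c n) ε hε h5 h6
  constructor
  · unfold PX
    fun_prop
  · refine h8.congr fun y => ?_
    unfold PX PL
    rw [Finset.sum_sub_distrib]
    have e1 : ∑ χ : DirichletCharacter ℂ q, ((L χ).r : ℂ) * (Real.exp (y / 2 + ε ^ 2 / 8) : ℂ) =
        (Real.exp (y / 2 + ε ^ 2 / 8) : ℂ) := by
      rw [Finset.sum_eq_single (1 : DirichletCharacter ℂ q)]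
      · rw [(h4 1).1 rfl]; simp
      · intro χ _ hχ
        rw [(h4 χ).2 hχ]; simp
      · intro h; exact absurd (Finset.mem_univ _) h
    rw [e1]
    have e2 : ∀ χ : DirichletCharacter ℂ q, ∑' n : ℕ, aL (L := L χ) n * (gs ε (y - Real.log n) : ℂ) =
        ∑' n : ℕ, ((ArithmeticFunction.vonMangoldt n / Real.sqrt n : ℝ) : ℂ) * (L χ).c n *
          (gs ε (y - Real.log n) : ℂ) := fun χ =>
      tsum_congr fun n => by rw [aL_eq (L χ) (fun _ => rfl)]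
    simp only [e2]
    push_cast
    ring

/-- the theorem for the characters modulo `q` -/
theorem dir_all (hEF : S_EF) (hZR : S_ZR) (hA : S_ABS) (hL : S_LAN) (hD : S_DIR) (hC : S_CJ) (hDP : S_DP) {ε κ : ℝ}
    (hε : 0 < ε) (hκ : 0 < κ) :
    Concl (fun k : KK (IX q) (mx q) => (k.2.1 : ℂ)) (fun _ => 1) (PX q ε) ε κ ∧
    ((∃ B : ℝ, ∀ᶠ Y in atTop, EM (PX q ε) κ Y ≤ B) → ∀ χ s, IX q χ s → s.re = 1 / 2) ∧
    (∀ χ s, IX q χ s → 0 < mx q χ s) ∧
    m0 (fun k : KK (IX q) (mx q) => (k.2.1 : ℂ)) (fun _ => 1) = ∑ χ, (mx q χ (1 / 2) : ℝ) := by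
  obtain ⟨L, H, h4, h5, h6⟩ := dir_fd q hD hC
  obtain ⟨hPc, hP⟩ := dir_PL q hDP h4 h5 h6 hε
  have hy := fam_hyp hEF hZR H hε hPc hP
  have hnp : ∀ χ s, IX q χ s → 0 < mx q χ s := fun χ s hs => n_pos hZR H hs
  refine ⟨hy.concl hA hε hκ, fun hB χ s hs => ?_, hnp, ?_⟩
  · exact Hyp.grh hL hκ hy hB ⟨χ, ⟨s, hs⟩, ⟨0, hnp χ s hs⟩⟩
  · rw [m0_kk hZR H]
    refine Finset.sum_congr rfl fun χ _ => ?_
    by_cases h : IX q χ (1 / 2)
    · rw [if_pos h]
    · rw [if_neg h]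
      have h1 : DirichletCharacter.LFunction χ (1 / 2) ≠ 0 := by
        intro h0
        exact h ⟨h0, by norm_num, by norm_num⟩
      unfold mx analyticOrderNatAt
      have h2 : AnalyticAt ℂ (DirichletCharacter.LFunction χ) (1 / 2) := by
        have h3 : DifferentiableOn ℂ (DirichletCharacter.LFunction χ) {(1 : ℂ)}ᶜ := fun z hz =>
          (DirichletCharacter.differentiableAt_LFunction χ z (Or.inl hz)).differentiableWithinAt
        exact h3.analyticAt (isOpen_compl_singleton.mem_nhds (by simp))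
      rw [h2.analyticOrderAt_eq_zero.2 h1]
      simp

/-- the statement of the problem for `q` -/
def Hoo : Prop :=
  (∀ χ : DirichletCharacter ℂ q, ∀ ρ : ℂ, 0 < ρ.re → ρ.re < 1 → 0 < ρ.im →
      DirichletCharacter.LFunction χ ρ = 0 →
      deriv (DirichletCharacter.LFunction χ) ρ ≠ 0) ∧
  LinearIndependent ℚ
    (fun p : {p : DirichletCharacter ℂ q × ℂ //
        0 < p.2.re ∧ p.2.re < 1 ∧ 0 < p.2.im ∧
          DirichletCharacter.LFunction p.1 p.2 = 0} => p.1.2.im)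

lemma order_one {f : ℂ → ℂ} {z : ℂ} (hf : AnalyticAt ℂ f z) (h0 : f z = 0) :
    analyticOrderNatAt f z = 1 ↔ deriv f z ≠ 0 := by
  have h1 := hf.analyticOrderAt_deriv_add_one
  rw [h0] at h1
  simp only [sub_zero] at h1
  have h2 := hf.deriv.analyticOrderAt_eq_zero
  rw [← h2]
  unfold analyticOrderNatAt
  rw [← h1]
  constructor
  · intro h
    rcases eq_or_ne (analyticOrderAt (deriv f) z) ⊤ with h3 | h3
    · rw [h3] at h; simp at h
    · obtain ⟨k, hk⟩ := ENat.ne_top_iff_exists.1 h3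
      rw [← hk] at h ⊢
      have h4 : ((k : ℕ∞) + 1).toNat = k + 1 := by
        rw [show ((k : ℕ∞) + 1) = ((k + 1 : ℕ) : ℕ∞) by push_cast; rfl, ENat.toNat_coe]
      rw [h4] at h
      have : k = 0 := by omega
      rw [this]; rfl
  · intro h
    rw [h]; rfl

lemma LF_an {χ : DirichletCharacter ℂ q} {s : ℂ} (h : s ≠ 1) : AnalyticAt ℂ (DirichletCharacter.LFunction χ) s := by
  have h3 : DifferentiableOn ℂ (DirichletCharacter.LFunction χ) {(1 : ℂ)}ᶜ := fun z hz =>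
    (DirichletCharacter.differentiableAt_LFunction χ z (Or.inl hz)).differentiableWithinAt
  exact h3.analyticAt (isOpen_compl_singleton.mem_nhds h)

lemma IX_ne {χ : DirichletCharacter ℂ q} {s : ℂ} (h : IX q χ s) : s ≠ 1 := by
  rintro rfl
  have := h.2.2
  simp at this

/-- Hooley's statement is linear independence of the family with multiplicities -/
lemma hoo_iff (hmp : ∀ χ s, IX q χ s → 0 < mx q χ s) :
    Hoo q ↔ LinearIndependent ℚ (fun k : {k : KK (IX q) (mx q) // 0 < (k.2.1 : ℂ).im} => (k.1.2.1 : ℂ).im) := by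
  -- reindex
  let Z : Type := Σ χ : DirichletCharacter ℂ q, {s : ℂ // IX q χ s}
  have h1 := simple_li (Z := Z) (fun z => (z.2 : ℂ).im) (fun z => mx q z.1 z.2) (fun z => hmp _ _ z.2.2)
  let e1 : {k : KK (IX q) (mx q) // 0 < (k.2.1 : ℂ).im} ≃ {k : Σ z : Z, Fin (mx q z.1 z.2) // 0 < (k.1.2 : ℂ).im} :=
    { toFun := fun k => ⟨⟨⟨k.1.1, k.1.2.1⟩, k.1.2.2⟩, k.2⟩
      invFun := fun k => ⟨⟨k.1.1.1, ⟨k.1.1.2, k.1.2⟩⟩, k.2⟩
      left_inv := fun k => rfl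
      right_inv := fun k => rfl }
  let e2 : {z : Z // 0 < (z.2 : ℂ).im} ≃ {p : DirichletCharacter ℂ q × ℂ //
        0 < p.2.re ∧ p.2.re < 1 ∧ 0 < p.2.im ∧ DirichletCharacter.LFunction p.1 p.2 = 0} :=
    { toFun := fun k => ⟨(k.1.1, k.1.2), k.1.2.2.2.1, k.1.2.2.2.2, k.2, k.1.2.2.1⟩
      invFun := fun p => ⟨⟨p.1.1, ⟨p.1.2, p.2.2.2.2, p.2.1, p.2.2.1⟩⟩, p.2.2.2.1⟩
      left_inv := fun k => rfl
      right_inv := fun k => rfl }
  have h2 := linearIndependent_equiv e1 (R := ℚ) (f := fun k : {k : Σ z : Z, Fin (mx q z.1 z.2) // 0 < (k.1.2 : ℂ).im} => (k.1.1.2 : ℂ).im)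
  have h3 := linearIndependent_equiv e2 (R := ℚ) (f := fun p : {p : DirichletCharacter ℂ q × ℂ //
        0 < p.2.re ∧ p.2.re < 1 ∧ 0 < p.2.im ∧ DirichletCharacter.LFunction p.1 p.2 = 0} => p.1.2.im)
  have h4 : LinearIndependent ℚ (fun k : {k : KK (IX q) (mx q) // 0 < (k.2.1 : ℂ).im} => (k.1.2.1 : ℂ).im) ↔
      LinearIndependent ℚ (fun k : {k : Σ z : Z, Fin (mx q z.1 z.2) // 0 < (k.1.2 : ℂ).im} => (k.1.1.2 : ℂ).im) := h2
  have h5 : LinearIndependent ℚ (fun k : {z : Z // 0 < (z.2 : ℂ).im} => (k.1.2 : ℂ).im) ↔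
      LinearIndependent ℚ (fun p : {p : DirichletCharacter ℂ q × ℂ //
        0 < p.2.re ∧ p.2.re < 1 ∧ 0 < p.2.im ∧ DirichletCharacter.LFunction p.1 p.2 = 0} => p.1.2.im) := h3
  rw [h4, h1, h5]
  unfold Hoo
  refine and_congr_left fun _ => ?_
  constructor
  · intro h z hz
    exact (order_one (LF_an q (IX_ne q z.2.2)) z.2.2.1).2 (h z.1 z.2 z.2.2.2.1 z.2.2.2.2 hz z.2.2.1)
  · intro h χ ρ a b c e
    have hx : IX q χ ρ := ⟨e, a, b⟩
    exact (order_one (LF_an q (IX_ne q hx)) e).1 (h ⟨χ, ⟨ρ, hx⟩⟩ c)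

end

end Pool.Agent.N804.LI
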