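import Pool.Agent.N804.LI.StmE
import Pool.Agent.N804.LI.Abs

set_option autoImplicit false

/-! # Project LI: finite families of L-functions -/

namespace Pool.Agent.N804.LI

open Filter Topology MeasureTheory Set
open scoped ComplexConjugate
open Pool.Agent.Y23.G (LFun aL)

/-- the conclusion of the abstract theorem -/
def Concl {K : Type} (ρ : K → ℂ) (μ : K → ℝ) (P : ℝ → ℝ) (ε κ : ℝ) : Prop :=
  (∀ m : ℝ, m ≤ m0 ρ μ →
    (((∀ k, (ρ k).re = 1 / 2) ∧ LinearIndependent ℚ (fun k : {k // 0 < (ρ k).im} => (ρ k).im) ∧ m0 ρ μ = m) ↔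
      ∀ δ : ℝ, 0 < δ → ∀ᶠ Y in atTop, EM P κ Y ≤ RH0 ρ μ ε κ m + δ)) ∧
  ((∀ k, (ρ k).re = 1 / 2) → LinearIndependent ℚ (fun k : {k // 0 < (ρ k).im} => (ρ k).im) →
    Tendsto (EM P κ) atTop (𝓝 (RH0 ρ μ ε κ (m0 ρ μ))))

lemma Hyp.concl (hA : S_ABS) {K : Type} {ρ : K → ℂ} {μ : K → ℝ} {bar : K → K} {P : ℝ → ℝ} {ε κ : ℝ}
    (hε : 0 < ε) (hκ : 0 < κ) (H : Hyp ρ μ bar P ε) : Concl ρ μ P ε κ :=
  hA K ρ μ bar P ε κ hε hκ H.pos H.inv H.mub H.rb H.refl H.str H.fin H.sum H.cont H.lim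

/-- the zeros of a family with multiplicity -/
abbrev KK {I : Type} (p : I → ℂ → Prop) (n : I → ℂ → ℕ) : Type :=
  Σ i : I, Σ s : {s : ℂ // p i s}, Fin (n i (s : ℂ))

/-- the distinct zeros of a family -/
abbrev KD {I : Type} (p : I → ℂ → Prop) : Type := Σ i : I, {s : ℂ // p i s}

/-- the hypotheses -/
structure FD {I : Type} (p : I → ℂ → Prop) (n : I → ℂ → ℕ) (d : I → I) (L : I → LFun) : Prop where
  inv : ∀ i, d (d i) = i
  z : ∀ i s, (L i).X s = 0 ↔ p i s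
  o : ∀ i s, p i s → n i s = analyticOrderNatAt (L i).X s
  cz : ∀ i s, p i s → p (d i) (conj s)
  co : ∀ i s, p i s → n (d i) (conj s) = n i s

section
variable {I : Type} {p : I → ℂ → Prop} {n : I → ℂ → ℕ} {d : I → I} {L : I → LFun}

lemma kk_ext {k l : KK p n} (h1 : k.1 = l.1) (h2 : (k.2.1 : ℂ) = (l.2.1 : ℂ)) (h3 : (k.2.2 : ℕ) = (l.2.2 : ℕ)) :
    k = l := by
  obtain ⟨i, ⟨s, hs⟩, ⟨j, hj⟩⟩ := k
  obtain ⟨i', ⟨s', hs'⟩, ⟨j', hj'⟩⟩ := l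
  dsimp only at h1 h2 h3
  subst h1
  subst h2
  subst h3
  rfl

lemma kd_ext {k l : KD p} (h1 : k.1 = l.1) (h2 : (k.2 : ℂ) = (l.2 : ℂ)) : k = l := by
  obtain ⟨i, ⟨s, hs⟩⟩ := k
  obtain ⟨i', ⟨s', hs'⟩⟩ := l
  dsimp only at h1 h2
  subst h1
  subst h2
  rfl

/-- conjugation -/
def kkbar (H : FD p n d L) (k : KK p n) : KK p n :=
  ⟨d k.1, ⟨conj (k.2.1 : ℂ), H.cz _ _ k.2.1.2⟩, Fin.cast (H.co _ _ k.2.1.2).symm k.2.2⟩

lemma kkbar_inv (H : FD p n d L) (k : KK p n) : kkbar H (kkbar H k) = k :=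
  kk_ext (H.inv _) (Complex.conj_conj _) rfl

/-- conjugation -/
def kdbar (H : FD p n d L) (k : KD p) : KD p := ⟨d k.1, ⟨conj (k.2 : ℂ), H.cz _ _ k.2.2⟩⟩

lemma kdbar_inv (H : FD p n d L) (k : KD p) : kdbar H (kdbar H k) = k :=
  kd_ext (H.inv _) (Complex.conj_conj _)

/-- the zeros of the completed functions -/
noncomputable def kke (H : FD p n d L) : KK p n ≃ Σ i, Zr (L i).X :=
  Equiv.sigmaCongrRight fun i => Equiv.sigmaCongr (Equiv.subtypeEquivRight fun s => (H.z i s).symm)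
    fun s => finCongr (H.o i s s.2)

lemma kke_z (H : FD p n d L) (k : KK p n) : zv (kke H k).2 = (k.2.1 : ℂ) := rfl

/-- the term -/
noncomputable def tm (ε y : ℝ) (s : ℂ) : ℂ := Complex.exp ((s - 1 / 2) * y + ε ^ 2 * (s - 1 / 2) ^ 2 / 2)

lemma tm_norm {ε y : ℝ} {s : ℂ} (hs : |s.re - 1 / 2| ≤ 1) :
    ‖tm ε y s‖ ≤ Real.exp (|y| + ε ^ 2 / 2) * Real.exp (-(ε ^ 2 * s.im ^ 2 / 2)) := by
  unfold tm
  rw [Complex.norm_exp, ← Real.exp_add]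
  refine Real.exp_le_exp.2 ?_
  have e2 : ((ε : ℂ) ^ 2 * (s - 1 / 2) ^ 2 / 2) = (((ε ^ 2 / 2 : ℝ)) : ℂ) * (s - 1 / 2) ^ 2 := by
    push_cast; ring
  have e1 : ((s - 1 / 2) * y + (ε : ℂ) ^ 2 * (s - 1 / 2) ^ 2 / 2).re =
      (s.re - 1 / 2) * y + ε ^ 2 * ((s.re - 1 / 2) ^ 2 - s.im ^ 2) / 2 := by
    rw [e2, Complex.add_re, Complex.re_ofReal_mul, Complex.re_mul_ofReal, sq (s - 1 / 2), Complex.mul_re]
    simp
    ring
  rw [e1]
  have h1 : (s.re - 1 / 2) * y ≤ |y| := by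
    refine (le_abs_self _).trans ?_
    rw [abs_mul]
    have := abs_nonneg y
    nlinarith
  have h3 : (s.re - 1 / 2) ^ 2 ≤ 1 := by
    rw [← sq_abs]
    have := abs_nonneg (s.re - 1 / 2)
    nlinarith
  have h4 : 0 ≤ ε ^ 2 := sq_nonneg ε
  nlinarith

variable [Fintype I]

lemma sum_all (hEF : S_EF) {ε : ℝ} (hε : 0 < ε) :
    Summable (fun k : Σ i, Zr (L i).X => Real.exp (-(ε ^ 2 * (zv k.2).im ^ 2 / 2))) := by
  rw [summable_sigma_of_nonneg fun _ => (Real.exp_pos _).le]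
  exact ⟨fun i => (hEF (L i) ε hε).2.1, Summable.of_finite⟩

lemma fin_all (hZR : S_ZR) (R : ℝ) : {k : Σ i, Zr (L i).X | ‖zv k.2‖ ≤ R}.Finite := by
  have h1 : {k : Σ i, Zr (L i).X | ‖zv k.2‖ ≤ R} ⊆ ⋃ i, Sigma.mk i '' {k : Zr (L i).X | ‖zv k‖ ≤ R} := by
    rintro ⟨i, k⟩ hk
    exact mem_iUnion.2 ⟨i, ⟨k, hk, rfl⟩⟩
  exact (Set.finite_iUnion fun i => (((hZR (L i)).2.2.2 R).image _)).subset h1

lemma tm_all (hEF : S_EF) (hZR : S_ZR) {ε : ℝ} (hε : 0 < ε) (y : ℝ) :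
    Summable (fun k : Σ i, Zr (L i).X => tm ε y (zv k.2)) :=
  Summable.of_norm_bounded ((sum_all hEF hε).mul_left _) fun k => tm_norm ((hZR (L k.1)).2.2.1 k.2)

lemma lim_all (hEF : S_EF) (hZR : S_ZR) {ε : ℝ} (hε : 0 < ε) {P : ℝ → ℝ}
    (hP : Tendsto (fun y : ℝ => (P y : ℂ) - ∑ i, PL (L i) ε y) atTop (𝓝 0)) :
    Tendsto (fun y : ℝ => (P y : ℂ) - ∑' k : Σ i, Zr (L i).X, tm ε y (zv k.2)) atTop (𝓝 0) := by
  have h1 : Tendsto (fun y : ℝ => ∑ i, (PL (L i) ε y - ∑' k : Zr (L i).X, tm ε y (zv k))) atTop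
      (𝓝 (∑ _i : I, (0 : ℂ))) := tendsto_finsetSum _ fun i _ => (hEF (L i) ε hε).2.2
  rw [Finset.sum_const_zero] at h1
  have h2 := hP.add h1
  rw [add_zero] at h2
  refine h2.congr fun y => ?_
  have h3 : ∑' k : Σ i, Zr (L i).X, tm ε y (zv k.2) = ∑ i, ∑' k : Zr (L i).X, tm ε y (zv k) := by
    rw [(tm_all hEF hZR hε y).tsum_sigma, tsum_fintype]
  rw [h3, Finset.sum_sub_distrib]
  ring

/-- the hypotheses for a family, zeros with multiplicity -/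
theorem fam_hyp (hEF : S_EF) (hZR : S_ZR) (H : FD p n d L) {ε : ℝ} (hε : 0 < ε)
    {P : ℝ → ℝ} (hPc : Continuous P)
    (hP : Tendsto (fun y : ℝ => (P y : ℂ) - ∑ i, PL (L i) ε y) atTop (𝓝 0)) :
    Hyp (fun k : KK p n => (k.2.1 : ℂ)) (fun _ => 1) (kkbar H) P ε := by
  refine ⟨fun _ => one_pos, kkbar_inv H,
    fun _ => rfl, fun k => rfl, fun k => ?_, fun k => ?_, fun R => ?_, ?_, hPc, ?_⟩
  · obtain ⟨l, hl⟩ := (hZR (L k.1)).2.1 (kke H k).2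
    refine ⟨(kke H).symm ⟨k.1, l⟩, ?_⟩
    have h1 := kke_z H ((kke H).symm ⟨k.1, l⟩)
    rw [Equiv.apply_symm_apply] at h1
    exact h1.symm.trans hl
  · exact (hZR (L k.1)).2.2.1 (kke H k).2
  · exact (fin_all hZR R).preimage (kke H).injective.injOn
  · have h1 := (kke H).summable_iff.2 (sum_all (L := L) hEF hε)
    refine h1.congr fun k => ?_
    rw [one_mul]
    rfl
  · refine (lim_all hEF hZR hε hP).congr fun y => ?_
    rw [← (kke H).tsum_eq]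
    congr 1
    refine tsum_congr fun k => ?_
    rw [Complex.ofReal_one, one_mul]
    rfl

/-- the theorem for a family, zeros with multiplicity -/
theorem fam_main (hEF : S_EF) (hZR : S_ZR) (hA : S_ABS) (H : FD p n d L) {ε κ : ℝ} (hε : 0 < ε) (hκ : 0 < κ)
    {P : ℝ → ℝ} (hPc : Continuous P)
    (hP : Tendsto (fun y : ℝ => (P y : ℂ) - ∑ i, PL (L i) ε y) atTop (𝓝 0)) :
    Concl (fun k : KK p n => (k.2.1 : ℂ)) (fun _ => 1) P ε κ :=
  (fam_hyp hEF hZR H hε hPc hP).concl hA hε hκ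

/-- the hypotheses for a family, distinct zeros with weights -/
theorem dist_hyp (hEF : S_EF) (hZR : S_ZR) (H : FD p n d L) {ε : ℝ} (hε : 0 < ε)
    {P : ℝ → ℝ} (hPc : Continuous P)
    (hP : Tendsto (fun y : ℝ => (P y : ℂ) - ∑ i, PL (L i) ε y) atTop (𝓝 0)) :
    Hyp (fun k : KD p => (k.2 : ℂ)) (fun k => (n k.1 k.2 : ℝ)) (kdbar H) P ε := by
  have hn : ∀ k : KD p, 0 < n k.1 k.2 := fun k => by
    rw [H.o _ _ k.2.2]
    exact (hZR (L k.1)).1 _ ((H.z _ _).2 k.2.2)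
  let pr : KK p n → KD p := fun k => ⟨k.1, k.2.1⟩
  let e0 : (Σ k : KD p, Fin (n k.1 k.2)) ≃ KK p n := Equiv.sigmaAssoc (fun (i : I) (s : {s : ℂ // p i s}) => Fin (n i (s : ℂ)))
  refine ⟨fun k => by exact_mod_cast hn k, kdbar_inv H,
    fun k => by exact_mod_cast congrArg (Nat.cast (R := ℝ)) (H.co _ _ k.2.2), fun k => rfl, fun k => ?_, fun k => ?_,
    fun R => ?_, ?_, hPc, ?_⟩
  · obtain ⟨l, hl⟩ := (hZR (L k.1)).2.1 (kke H ⟨k.1, k.2, ⟨0, hn k⟩⟩).2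
    refine ⟨pr ((kke H).symm ⟨k.1, l⟩), ?_⟩
    have h1 := kke_z H ((kke H).symm ⟨k.1, l⟩)
    rw [Equiv.apply_symm_apply] at h1
    exact h1.symm.trans hl
  · exact (hZR (L k.1)).2.2.1 (kke H ⟨k.1, k.2, ⟨0, hn k⟩⟩).2
  · refine (((fin_all (L := L) hZR R).preimage (kke H).injective.injOn).image pr).subset fun k hk => ?_
    exact ⟨⟨k.1, k.2, ⟨0, hn k⟩⟩, hk, rfl⟩
  · have h1 : Summable (fun k : KK p n => Real.exp (-(ε ^ 2 * ((k.2.1 : ℂ)).im ^ 2 / 2))) :=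
      ((kke H).summable_iff.2 (sum_all (L := L) hEF hε)).congr fun k => rfl
    have h2 := (e0.summable_iff.2 h1).sigma
    refine h2.congr fun k => ?_
    rw [tsum_fintype]
    refine (Finset.sum_congr (g := fun _ => Real.exp (-(ε ^ 2 * ((k.2 : ℂ)).im ^ 2 / 2))) rfl (fun j _ => rfl)).trans ?_
    rw [Finset.sum_const, Finset.card_univ, Fintype.card_fin, nsmul_eq_mul]
  · refine (lim_all hEF hZR hε hP).congr fun y => ?_
    have h1 : Summable (fun k : KK p n => tm ε y (k.2.1 : ℂ)) :=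
      ((kke H).summable_iff.2 (tm_all (L := L) hEF hZR hε y)).congr fun k => rfl
    rw [← (kke H).tsum_eq]
    congr 1
    have e1 : ∑' k : KK p n, tm ε y (zv ((kke H) k).2) = ∑' k : KK p n, tm ε y (k.2.1 : ℂ) := rfl
    rw [e1, ← e0.tsum_eq]
    refine (Summable.tsum_sigma (e0.summable_iff.2 h1)).trans ?_
    refine tsum_congr fun k => ?_
    rw [tsum_fintype]
    refine (Finset.sum_congr (g := fun _ => tm ε y (k.2 : ℂ)) rfl (fun j _ => rfl)).trans ?_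
    rw [Finset.sum_const, Finset.card_univ, Fintype.card_fin, nsmul_eq_mul]
    push_cast
    rfl

/-- the theorem for a family, distinct zeros with weights -/
theorem fam_dist (hEF : S_EF) (hZR : S_ZR) (hA : S_ABS) (H : FD p n d L) {ε κ : ℝ} (hε : 0 < ε) (hκ : 0 < κ)
    {P : ℝ → ℝ} (hPc : Continuous P)
    (hP : Tendsto (fun y : ℝ => (P y : ℂ) - ∑ i, PL (L i) ε y) atTop (𝓝 0)) :
    Concl (fun k : KD p => (k.2 : ℂ)) (fun k => (n k.1 k.2 : ℝ)) P ε κ :=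
  (dist_hyp hEF hZR H hε hPc hP).concl hA hε hκ

end

end Pool.Agent.N804.LI
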