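import Pool.Agent.N804.LI.Stm

set_option autoImplicit false

/-! # Project LI: partial fractions and Laplace transforms; statements over Mathlib -/

namespace Pool.Agent.N804.LI

open Filter Topology MeasureTheory Set

open Classical in
/-- LI/PFR: sums of partial fractions -/
def S_PFR : Prop := ∀ (Z : Type) (z a : Z → ℂ), (Summable fun k => ‖a k‖) → (∀ R : ℝ, {k | ‖z k‖ ≤ R}.Finite) →
  (∀ s : ℂ, (∀ k, z k ≠ s) → AnalyticAt ℂ (fun s => ∑' k, a k / (s - z k)) s) ∧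
  (∀ s0 : ℂ, ∃ C δ : ℝ, 0 < δ ∧ ∀ s : ℂ, s ≠ s0 → ‖s - s0‖ < δ →
    ‖(∑' k, a k / (s - z k)) - (∑' k, if z k = s0 then a k else 0) / (s - s0)‖ ≤ C) ∧
  (∀ b : ℝ, (∀ k, (z k).re ≤ b) → Continuous (fun y : ℝ => ∑' k, a k * Complex.exp (z k * max y 0)) ∧
    ∀ s : ℂ, b < s.re →
    IntegrableOn (fun y : ℝ => (∑' k, a k * Complex.exp (z k * y)) * Complex.exp (-(s * y))) (Ioi 0) ∧
    ∫ y in Ioi (0 : ℝ), (∑' k, a k * Complex.exp (z k * y)) * Complex.exp (-(s * y)) = ∑' k, a k / (s - z k))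

/-- LI/LLP: Laplace integrals -/
def S_LLP : Prop :=
  (∀ (f : ℝ → ℝ), Continuous f → (∀ y, 0 ≤ f y) → (∃ C : ℝ, ∀ Y : ℝ, 1 ≤ Y → ∫ y in (0 : ℝ)..Y, f y ≤ C * Y) →
    ∀ w : ℝ, 0 < w → IntegrableOn (fun u => f u * Real.exp (-(w * u))) (Ioi 0)) ∧
  (∀ (f : ℝ → ℂ) (a : ℝ), Measurable f →
    (∀ w : ℝ, a < w → IntegrableOn (fun u : ℝ => f u * (Real.exp (-(w * u)) : ℂ)) (Ioi 0)) →
    ∀ s : ℂ, a < s.re → IntegrableOn (fun u : ℝ => f u * Complex.exp (-(s * u))) (Ioi 0) ∧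
      AnalyticAt ℂ (fun s : ℂ => ∫ u in Ioi (0 : ℝ), f u * Complex.exp (-(s * u))) s)

end Pool.Agent.N804.LI
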