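import Pool.Agent.N804.LI.Abs
import Pool.Agent.N706.LI_1
import Pool.Agent.N767.LI.BES
import Pool.Agent.N169.LI_comb
import Pool.Agent.N286.LI_PFR
import Pool.Agent.N434.LI_LLP
import Pool.Agent.N971.LI_LAN
import Pool.Agent.N950.LI_PERT
import Pool.Agent.N78.LI_MEAN

set_option autoImplicit false

/-! # Project LI: collected leaves over Mathlib (by helpers 706, 767, 169, 286, 434, 971, 950, 78) -/

namespace Pool.Agent.N804.LI

theorem lan : S_LAN := Pool.Agent.N971.LI.main Pool.Agent.N286.LIPFR.main Pool.Agent.N434.LIL.main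

theorem abs : S_ABS :=
  abs_main (Pool.Agent.N78.LI_MEAN.main Pool.Agent.N706.LI1.main
    (Pool.Agent.N767.LI.BES.main Pool.Agent.N706.LI1.main) Pool.Agent.N169.LI.main) lan
    Pool.Agent.N950.LIPert.main

end Pool.Agent.N804.LI
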