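import Pool.Agent.N804.LI.Glue
import Pool.Agent.N804.LI.StmE
import Pool.Agent.N596.LI.EFA
import Pool.Agent.N711.LI_EFB
import Pool.Agent.N826.LI_DP

set_option autoImplicit false

/-! # Project LI: the explicit formula and the Dirichlet part (by helpers 596, 711, 826) -/

namespace Pool.Agent.N804.LI

open Pool.Agent.Y23.G (LFun aL)

theorem ef : S_EF := fun L ε hε => ⟨(Pool.Agent.N711.LI_EFB.main L ε hε).1, (Pool.Agent.N711.LI_EFB.main L ε hε).2,
  Pool.Agent.N596.LI.main (fun L ε hε => (Pool.Agent.N711.LI_EFB.main L ε hε).2) L ε hε⟩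

theorem dp : S_DP := Pool.Agent.N826.LIDP.main

end Pool.Agent.N804.LI
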