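import Pool.Agent.N804.LI.StmE

set_option autoImplicit false

/-! # Project LI: facts about the zeros -/

namespace Pool.Agent.N804.LI

open Filter Topology MeasureTheory Set
open scoped ComplexConjugate
open Pool.Agent.Y23.G (LFun aL)

theorem zr : S_ZR := by
  intro L
  have hpos : ∀ s, L.X s = 0 → 0 < analyticOrderNatAt L.X s := fun s hs =>
    Pool.Agent.Y23.G.X_mpos (L := L) hs
  refine ⟨hpos, fun k => ?_, fun k => Pool.Agent.Y23.G.X_strip (L := L) k.1.2, fun R => ?_⟩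
  · have h := Pool.Agent.Y23.G.X_zero (L := L) k.1.2
    exact ⟨⟨⟨1 - conj (zv k), h⟩, ⟨0, hpos _ h⟩⟩, rfl⟩
  · -- finiteness
    have h1 : {s : {s : ℂ // L.X s = 0} | ‖(s : ℂ)‖ ≤ R}.Finite := by
      have h2 : (⋃ j ∈ Set.Icc (-(⌈R⌉ + 1)) (⌈R⌉ + 1), {s : ℂ | L.X s = 0 ∧ |s.im - (j : ℤ)| ≤ 1}).Finite :=
        (Set.finite_Icc _ _).biUnion fun j _ => Pool.Agent.Y23.G.win_finite (L := L) _
      have h3 := h2.preimage (f := ((↑) : {s : ℂ // L.X s = 0} → ℂ)) Subtype.val_injective.injOn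
      refine h3.subset fun s hs => ?_
      have hs : ‖(s : ℂ)‖ ≤ R := hs
      have him := (Complex.abs_im_le_norm (s : ℂ)).trans hs
      have h4 := abs_le.1 him
      refine Set.mem_iUnion₂.2 ⟨⌊(s : ℂ).im⌋, ⟨?_, ?_⟩, s.2, ?_⟩
      · have h5 : (-(⌈R⌉ : ℤ) : ℝ) ≤ (s : ℂ).im := by
          have := Int.le_ceil R
          linarith [h4.1]
        have h6 : -⌈R⌉ ≤ ⌊(s : ℂ).im⌋ := Int.le_floor.2 (by exact_mod_cast h5)
        omega
      · have h5 : ((⌊(s : ℂ).im⌋ : ℤ) : ℝ) ≤ (⌈R⌉ : ℤ) := (Int.floor_le _).trans (h4.2.trans (Int.le_ceil R))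
        have h6 : ⌊(s : ℂ).im⌋ ≤ ⌈R⌉ := by exact_mod_cast h5
        omega
      · have h5 := Int.floor_le (s : ℂ).im
        have h6 := Int.lt_floor_add_one (s : ℂ).im
        rw [abs_le]
        constructor <;> linarith
    have h2 : {k : Zr L.X | ‖zv k‖ ≤ R} ⊆ ⋃ s ∈ {s : {s : ℂ // L.X s = 0} | ‖(s : ℂ)‖ ≤ R},
        Set.range (fun j : Fin (analyticOrderNatAt L.X (s : ℂ)) => (⟨s, j⟩ : Zr L.X)) := by
      rintro ⟨s, j⟩ hk
      rw [Set.mem_iUnion₂]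
      exact ⟨s, hk, ⟨j, rfl⟩⟩
    exact (h1.biUnion fun s _ => Set.finite_range _).subset h2

end Pool.Agent.N804.LI
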