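import Pool.Agent.N804.LI.GlueE
import Pool.Agent.N804.LI.ZRp
import Pool.Agent.N342.LI_DIR
import Pool.Agent.N56.LI_CJ

set_option autoImplicit false

/-! # Project LI: Dirichlet L-functions (by helpers 342, 56) -/

namespace Pool.Agent.N804.LI

theorem dir : S_DIR := Pool.Agent.N342.LI_DIR.main
theorem cj : S_CJ := Pool.Agent.N56.LI_CJ.main

end Pool.Agent.N804.LI
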