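import Pool.Agent.N804.LI.Glue

set_option autoImplicit false

/-! # Project LI: the mean value theorem -/

namespace Pool.Agent.N804.LI

theorem mean : S_MEAN := Pool.Agent.N78.LI_MEAN.main Pool.Agent.N706.LI1.main
    (Pool.Agent.N767.LI.BES.main Pool.Agent.N706.LI1.main) Pool.Agent.N169.LI.main

theorem pert : S_PERT := Pool.Agent.N950.LIPert.main

end Pool.Agent.N804.LI
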