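import Pool.Agent.N804.LI.ZetaF
import Pool.Agent.N804.LI.Dir

set_option autoImplicit false

/-! # Project LI: under the Riemann Hypothesis the moment converges, and the limit is at least the
value for independent phases, with equality iff the ordinates are linearly independent -/

namespace Pool.Agent.N804.LI

open Filter Topology MeasureTheory Set
open scoped ComplexConjugate
open Pool.Agent.Y23.G (LFun aL)

theorem Hyp.key (hM : S_MEAN) (hP : S_PERT) {K : Type} {ρ : K → ℂ} {μ : K → ℝ} {bar : K → K} {P : ℝ → ℝ} {ε κ : ℝ}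
    (hκ : 0 < κ) (H : Hyp ρ μ bar P ε) (hRH : ∀ k, (ρ k).re = 1 / 2) :
    ∃ E : ℝ, Tendsto (EM P κ) atTop (𝓝 E) ∧ RH0 ρ μ ε κ (m0 ρ μ) ≤ E ∧
      (E = RH0 ρ μ ε κ (m0 ρ μ) ↔ LinearIndependent ℚ (fun k : {k // 0 < (ρ k).im} => (ρ k).im)) := by
  obtain ⟨hμ, hbb, hμb, hρb, hrefl, hstr, hfin, hsum, hPc, hlim⟩ := H
  have hc0 : ∀ k, 0 < cf ρ μ ε k := fun k => mul_pos (hμ k) (Real.exp_pos _)
  have hs : Summable (cf ρ μ ε) := hsum
  set c : {k // 0 < (ρ k).im} → ℝ := fun k => cf ρ μ ε k with hc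
  have hcs : Summable c := hs.subtype _
  obtain ⟨-, hpos, E, hE1, hE2, hE3⟩ := hM {k // 0 < (ρ k).im} c (fun k => (ρ k).im) κ hκ (fun i => hc0 i) hcs
  have hR : RH0 ρ μ ε κ (m0 ρ μ) = Real.exp (κ * m0 ρ μ) * ∏' i, I0 (2 * κ * c i) := rfl
  refine ⟨Real.exp (κ * m0 ρ μ) * E, ?_, ?_, ?_⟩
  rotate_left
  · rw [hR]
    exact mul_le_mul_of_nonneg_left hE2 (Real.exp_pos _).le
  · rw [hR, ← hE3]
    constructor
    · intro h
      exact mul_left_cancel₀ (Real.exp_pos _).ne' h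
    · intro h
      rw [h]
  have hFs : Summable (fun i => 2 * c i) := hcs.mul_left 2
  have hb : ∀ (i : {k // 0 < (ρ k).im}) (y : ℝ), ‖2 * c i * Real.cos ((ρ i).im * y)‖ ≤ 2 * c i := by
    intro i y
    have h1 : 0 ≤ 2 * c i := by have := hc0 i; simp only [hc]; linarith
    rw [norm_mul, Real.norm_of_nonneg h1, Real.norm_eq_abs]
    have := Real.abs_cos_le_one ((ρ i).im * y)
    nlinarith
  have hFc : Continuous (fun y : ℝ => ∑' i, 2 * c i * Real.cos ((ρ i).im * y)) := by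
    refine continuous_tsum (fun i => by fun_prop) hFs fun i y => hb i y
  have hFb : ∀ y : ℝ, |∑' i, 2 * c i * Real.cos ((ρ i).im * y)| ≤ ∑' i, 2 * c i := fun y => by
    rw [← Real.norm_eq_abs]
    exact tsum_of_norm_bounded hFs.hasSum fun i => hb i y
  refine hP P (fun y => m0 ρ μ + ∑' i, 2 * c i * Real.cos ((ρ i).im * y)) κ _ (|m0 ρ μ| + ∑' i, 2 * c i) hPc
    (by fun_prop) (fun y => (abs_add_le _ _).trans (by have := hFb y; linarith)) ?_ ?_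
  · have h1 : Tendsto (fun y : ℝ => ((P y : ℂ) -
        ∑' k, μ k * Complex.exp ((ρ k - 1 / 2) * y + ε ^ 2 * (ρ k - 1 / 2) ^ 2 / 2)).re) atTop (𝓝 0) := by
      have := (Complex.continuous_re.tendsto _).comp hlim
      rw [Complex.zero_re] at this
      exact this
    refine h1.congr fun y => ?_
    rw [sum_line hbb hμb hρb hRH hs (fun k => (hc0 k).le) y, ← Complex.ofReal_sub, Complex.ofReal_re]
  · have h1 := hE1.const_mul (Real.exp (κ * m0 ρ μ))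
    refine h1.congr fun Y => ?_
    rw [em_const]

/-- the conclusion -/
def Con2 {K : Type} (ρ : K → ℂ) (μ : K → ℝ) (P : ℝ → ℝ) (ε κ : ℝ) : Prop :=
  (∀ k, (ρ k).re = 1 / 2) → ∃ E : ℝ, Tendsto (EM P κ) atTop (𝓝 E) ∧ RH0 ρ μ ε κ (m0 ρ μ) ≤ E ∧
      (E = RH0 ρ μ ε κ (m0 ρ μ) ↔ LinearIndependent ℚ (fun k : {k // 0 < (ρ k).im} => (ρ k).im))

theorem con2_tr {K K' : Type} {ρ : K' → ℂ} {μ : K' → ℝ} {P : ℝ → ℝ} {ε κ : ℝ} (e : K ≃ K')
    (h : Con2 (fun k => ρ (e k)) (fun k => μ (e k)) P ε κ) : Con2 ρ μ P ε κ := by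
  have h0 : (∀ k, (ρ (e k)).re = 1 / 2) ↔ ∀ k, (ρ k).re = 1 / 2 :=
    ⟨fun h k => by have := h (e.symm k); rwa [Equiv.apply_symm_apply] at this, fun h k => h _⟩
  unfold Con2 at h ⊢
  rw [m0_tr e, li_tr e, h0] at h
  simp only [RH0_tr e] at h
  exact h

/-- zeta, distinct zeros -/
theorem zeta_key (hEF : S_EF) (hZR : S_ZR) (hM : S_MEAN) (hPt : S_PERT) (hD : S_DIR) (hC : S_CJ) {ε κ : ℝ}
    (hε : 0 < ε) (hκ : 0 < κ) (hRH : RiemannHypothesis) :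
    ∃ E : ℝ, Tendsto (EM (PZ ε) κ) atTop (𝓝 E) ∧
      (∏' γ : Gp, I0 (2 * κ * (mz (1 / 2 + (γ : ℝ) * Complex.I) * Real.exp (-(ε ^ 2 * (γ : ℝ) ^ 2 / 2))))) ≤ E ∧
      (E = (∏' γ : Gp, I0 (2 * κ * (mz (1 / 2 + (γ : ℝ) * Complex.I) * Real.exp (-(ε ^ 2 * (γ : ℝ) ^ 2 / 2))))) ↔
        LinearIndependent ℚ (fun γ : Gp => (γ : ℝ))) := by
  obtain ⟨L, H, hr, hc⟩ := zeta_fd hD hC
  have hPc : Continuous (PZ ε) := by
    have h1 := Complex.continuous_re.comp (hEF L ε hε).1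
    refine h1.congr fun y => ?_
    rw [Function.comp, zeta_PL hr hc, Complex.ofReal_re]
  have hP : Tendsto (fun y : ℝ => (PZ ε y : ℂ) - ∑ _i : Unit, PL L ε y) atTop (𝓝 0) := by
    refine tendsto_const_nhds.congr fun y => ?_
    rw [Finset.univ_unique, Finset.sum_singleton, zeta_PL hr hc, sub_self]
  have h1 : Con2 (fun k : {s : ℂ // IZ s} => (k : ℂ)) (fun k => (mz k : ℝ)) (PZ ε) ε κ :=
    con2_tr (K' := {s : ℂ // IZ s}) (ρ := fun k => (k : ℂ)) (μ := fun k => (mz k : ℝ))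
      (Equiv.uniqueSigma (fun _ : Unit => {s : ℂ // IZ s}))
      (fun h => Hyp.key hM hPt hκ (dist_hyp hEF hZR H hε hPc hP) h)
  have hRH' := rh_iff.1 hRH
  have hm : m0 (fun k : {s : ℂ // IZ s} => (k : ℂ)) (fun k => (mz k : ℝ)) = 0 := m0_zero fun k => k.2
  have hp : RH0 (fun k : {s : ℂ // IZ s} => (k : ℂ)) (fun k => (mz k : ℝ)) ε κ 0 =
      ∏' γ : Gp, I0 (2 * κ * (mz (1 / 2 + (γ : ℝ) * Complex.I) * Real.exp (-(ε ^ 2 * (γ : ℝ) ^ 2 / 2)))) := by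
    unfold RH0
    rw [mul_zero, Real.exp_zero, one_mul, ← (ge hRH').tprod_eq]
    refine tprod_congr fun k => ?_
    show _ = I0 (2 * κ * (mz (1 / 2 + (((k : {s : ℂ // IZ s}) : ℂ).im : ℂ) * Complex.I) * _))
    rw [eq_line hRH' k.1.2]
    rfl
  have hl : (LinearIndependent ℚ (fun k : {k : {s : ℂ // IZ s} // 0 < (k : ℂ).im} => ((k : {s : ℂ // IZ s}) : ℂ).im) ↔
        LinearIndependent ℚ (fun γ : Gp => (γ : ℝ))) :=
    linearIndependent_equiv (ge hRH') (f := fun γ : Gp => (γ : ℝ))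
  obtain ⟨E, h2, h3, h4⟩ := h1 fun k => hRH' k k.2
  rw [hm, hp] at h3 h4
  rw [hl] at h4
  exact ⟨E, h2, h3, h4⟩

/-- the characters modulo `q` -/
theorem dir_key (q : ℕ) [NeZero q] (hEF : S_EF) (hZR : S_ZR) (hM : S_MEAN) (hPt : S_PERT) (hD : S_DIR) (hC : S_CJ)
    (hDP : S_DP) {ε κ : ℝ} (hε : 0 < ε) (hκ : 0 < κ) :
    Con2 (fun k : KK (IX q) (mx q) => (k.2.1 : ℂ)) (fun _ => 1) (PX q ε) ε κ := by
  obtain ⟨L, H, h4, h5, h6⟩ := dir_fd q hD hC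
  obtain ⟨hPc, hP⟩ := dir_PL q hDP h4 h5 h6 hε
  exact fun h => Hyp.key hM hPt hκ (fam_hyp hEF hZR H hε hPc hP) h

end Pool.Agent.N804.LI
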