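import Pool.Agent.N804.LI.Fam

set_option autoImplicit false

/-! # Project LI: reindexing -/

namespace Pool.Agent.N804.LI

open Filter Topology MeasureTheory Set
open scoped ComplexConjugate

section
variable {K K' : Type} {ρ : K' → ℂ} {μ : K' → ℝ} {P : ℝ → ℝ} {ε κ : ℝ}

lemma m0_tr (e : K ≃ K') : m0 (fun k => ρ (e k)) (fun k => μ (e k)) = m0 ρ μ := by
  unfold m0
  exact e.tsum_eq (fun k => if ρ k = 1 / 2 then μ k else 0)

/-- the equivalence of the positive parts -/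
def pe (e : K ≃ K') : {k : K // 0 < (ρ (e k)).im} ≃ {k : K' // 0 < (ρ k).im} :=
  e.subtypeEquiv fun _ => Iff.rfl

lemma RH0_tr (e : K ≃ K') (m : ℝ) : RH0 (fun k => ρ (e k)) (fun k => μ (e k)) ε κ m = RH0 ρ μ ε κ m := by
  unfold RH0
  congr 1
  exact (pe e).tprod_eq (fun k : {k : K' // 0 < (ρ k).im} => I0 (2 * κ * (μ k * Real.exp (-(ε ^ 2 * (ρ k).im ^ 2 / 2)))))

lemma li_tr (e : K ≃ K') : LinearIndependent ℚ (fun k : {k : K // 0 < (ρ (e k)).im} => (ρ (e k)).im) ↔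
    LinearIndependent ℚ (fun k : {k : K' // 0 < (ρ k).im} => (ρ k).im) :=
  linearIndependent_equiv (pe e) (f := fun k : {k : K' // 0 < (ρ k).im} => (ρ k).im)

theorem concl_tr (e : K ≃ K') (h : Concl (fun k => ρ (e k)) (fun k => μ (e k)) P ε κ) : Concl ρ μ P ε κ := by
  have h0 : (∀ k, (ρ (e k)).re = 1 / 2) ↔ ∀ k, (ρ k).re = 1 / 2 :=
    ⟨fun h k => by have := h (e.symm k); rwa [Equiv.apply_symm_apply] at this, fun h k => h _⟩
  unfold Concl at h ⊢
  rw [m0_tr e, li_tr e, h0] at h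
  simp only [RH0_tr e] at h
  exact h

end

/-- simple zeros and linear independence -/
theorem simple_li {Z : Type} (γ : Z → ℝ) (n : Z → ℕ) (hn : ∀ z, 0 < n z) :
    LinearIndependent ℚ (fun k : {k : Σ z, Fin (n z) // 0 < γ k.1} => γ k.1.1) ↔
      (∀ z, 0 < γ z → n z = 1) ∧ LinearIndependent ℚ (fun k : {z // 0 < γ z} => γ k.1) := by
  constructor
  · intro h
    constructor
    · intro z hz
      by_contra hcon
      have h2 : 1 < n z := by have := hn z; omega
      have := h.injective (a₁ := ⟨⟨z, ⟨0, hn z⟩⟩, hz⟩) (a₂ := ⟨⟨z, ⟨1, h2⟩⟩, hz⟩) rfl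
      simp at this
    · refine h.comp (fun k : {z // 0 < γ z} => (⟨⟨k.1, ⟨0, hn _⟩⟩, k.2⟩ : {k : Σ z, Fin (n z) // 0 < γ k.1}))
        fun a b hab => ?_
      have := congrArg (fun k : {k : Σ z, Fin (n z) // 0 < γ k.1} => k.1.1) hab
      exact Subtype.ext this
  · rintro ⟨h1, h2⟩
    refine h2.comp (fun k : {k : Σ z, Fin (n z) // 0 < γ k.1} => (⟨k.1.1, k.2⟩ : {z // 0 < γ z})) fun a b hab => ?_
    obtain ⟨⟨z, j⟩, hz⟩ := a
    obtain ⟨⟨z', j'⟩, hz'⟩ := b
    have h3 : z = z' := congrArg Subtype.val hab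
    subst h3
    have h4 : j = j' := by
      apply Fin.ext
      have h5 := h1 z hz
      have := j.2
      have := j'.2
      omega
    subst h4
    rfl

end Pool.Agent.N804.LI
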