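import Pool.Agent.H295R2.Z

set_option autoImplicit false

/-! # No zeros of zeta on the real segment (by helper87, copied from N87/PV_1a.lean) -/

namespace Pool.Agent.N804.LI

open Complex Filter Topology Set MeasureTheory

/-- no zeros on the real segment -/
lemma zeta_real_ne {σ : ℝ} (hσ : 0 < σ) (h1 : σ < 1) : riemannZeta (σ : ℂ) ≠ 0 := by
  intro h0
  have hne : (σ : ℂ) ≠ 1 := by
    intro h
    have := congrArg Complex.re h
    simp at this
    linarith
  have hZs : Pool.Agent.H295R2.Zs (σ : ℂ) = 0 := by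
    rw [← Pool.Agent.H295R2.Zs_eq hne, h0, mul_zero]
  rw [Pool.Agent.H295R2.Zs_eq_Zt (by simpa using hσ)] at hZs
  have hH : ∃ r : ℝ, 0 ≤ r ∧ Pool.Agent.H295R2.Hf (σ : ℂ) = (r : ℂ) := by
    refine ⟨∫ t in Set.Ioi (1 : ℝ), Int.fract t * t ^ (-(σ + 1)), ?_, ?_⟩
    · refine setIntegral_nonneg measurableSet_Ioi fun t ht => ?_
      have ht : (1 : ℝ) < t := ht
      exact mul_nonneg (Int.fract_nonneg t) (by positivity)
    · rw [Pool.Agent.H295R2.Hf_eq, ← integral_complex_ofReal]
      refine setIntegral_congr_fun measurableSet_Ioi fun t ht => ?_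
      have ht : (1 : ℝ) < t := ht
      push_cast
      rw [Complex.ofReal_cpow (by linarith)]
      push_cast
      rfl
  obtain ⟨r, hr, hrH⟩ := hH
  unfold Pool.Agent.H295R2.Zt at hZs
  rw [hrH] at hZs
  have h2 := congrArg Complex.re hZs
  have h3 : ((σ : ℂ) - σ * (σ - 1) * (r : ℂ)).re = σ - σ * (σ - 1) * r := by
    rw [show ((σ : ℂ) - σ * (σ - 1) * (r : ℂ)) = ((σ - σ * (σ - 1) * r : ℝ) : ℂ) by push_cast; ring]
    exact Complex.ofReal_re _
  rw [h3] at h2
  simp only [Complex.zero_re] at h2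
  have : 0 ≤ σ * (1 - σ) * r := mul_nonneg (mul_nonneg hσ.le (by linarith)) hr
  nlinarith

end Pool.Agent.N804.LI
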