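import Pool.Agent.N804.LI.Tr
import Pool.Agent.N804.LI.ZN

set_option autoImplicit false

/-! # Project LI: the zeta function -/

namespace Pool.Agent.N804.LI

open Filter Topology MeasureTheory Set
open scoped ComplexConjugate
open Pool.Agent.Y23.G (LFun aL)

/-- nontrivial zeros -/
def IZ (s : ℂ) : Prop := riemannZeta s = 0 ∧ 0 < s.re ∧ s.re < 1

/-- the multiplicity -/
noncomputable def mz (s : ℂ) : ℕ := analyticOrderNatAt riemannZeta s

/-- the prime sum -/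
noncomputable def PZ (ε y : ℝ) : ℝ :=
  Real.exp (y / 2 + ε ^ 2 / 8) - ∑' n : ℕ, ArithmeticFunction.vonMangoldt n / Real.sqrt n * gs ε (y - Real.log n)

lemma aL_eq (L : LFun) {n : ℕ} {z : ℂ} (h : n ≠ 0 → L.c n = z) :
    aL (L := L) n = ((ArithmeticFunction.vonMangoldt n / Real.sqrt n : ℝ) : ℂ) * z := by
  unfold aL
  rcases Nat.eq_zero_or_pos n with h0 | h0
  · subst h0; simp
  · rw [h h0.ne']
    unfold Pool.Agent.TH839.NA.pw
    rw [Real.sqrt_eq_rpow, Real.rpow_neg (Nat.cast_nonneg _)]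
    push_cast
    ring

lemma zeta_fd (hD : S_DIR) (hC : S_CJ) : ∃ L : LFun,
    FD (I := Unit) (fun _ s => IZ s) (fun _ s => mz s) id (fun _ => L) ∧ L.r = 1 ∧ ∀ n : ℕ, n ≠ 0 → L.c n = 1 := by
  obtain ⟨L, h1, h2, h3, h4, h5, -⟩ := hD 1 (1 : DirichletCharacter ℂ 1)
  have e : DirichletCharacter.LFunction (1 : DirichletCharacter ℂ 1) = riemannZeta :=
    DirichletCharacter.LFunction_modOne_eq
  have hC' := hC 1 (1 : DirichletCharacter ℂ 1)
  rw [inv_one, e] at hC'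
  rw [e] at h1 h2
  refine ⟨L, ⟨fun _ => rfl, fun _ s => ⟨fun h => ?_, fun h => ?_⟩, fun _ s hs => ?_, fun _ s hs => ?_,
    fun _ s hs => ?_⟩, h4.1 rfl, fun n hn => ?_⟩
  · obtain ⟨a, b⟩ := h3 s h
    exact ⟨(h2 s a b).1 h, a, b⟩
  · exact (h2 s h.2.1 h.2.2).2 h.1
  · exact (h1 s hs.2.1 hs.2.2).symm
  · refine ⟨((hC' s hs.2.1 hs.2.2).1).2 hs.1, ?_, ?_⟩
    · rw [Complex.conj_re]; exact hs.2.1
    · rw [Complex.conj_re]; exact hs.2.2
  · exact (hC' s hs.2.1 hs.2.2).2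
  · rw [h5 n hn (Nat.coprime_one_right n)]
    rw [MulChar.one_apply (isUnit_of_subsingleton _)]

lemma zeta_PL {L : LFun} (hr : L.r = 1) (hc : ∀ n : ℕ, n ≠ 0 → L.c n = 1) (ε y : ℝ) : PL L ε y = (PZ ε y : ℂ) := by
  unfold PL PZ
  rw [hr]
  push_cast
  congr 1
  · simp
  · refine tsum_congr fun n => ?_
    rw [aL_eq L (hc n)]
    push_cast
    ring

lemma IZ_im {s : ℂ} (h : IZ s) : s.im ≠ 0 := by
  intro him
  obtain ⟨h0, h1, h2⟩ := h
  have hs : s = (s.re : ℂ) := by apply Complex.ext <;> simp [him]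
  rw [hs] at h0
  exact zeta_real_ne h1 h2 h0

lemma zeta_all (hEF : S_EF) (hZR : S_ZR) (hA : S_ABS) (hL : S_LAN) (hD : S_DIR) (hC : S_CJ) {ε κ : ℝ} (hε : 0 < ε) (hκ : 0 < κ) :
    Concl (fun k : Σ s : {s : ℂ // IZ s}, Fin (mz s) => (k.1 : ℂ)) (fun _ => 1) (PZ ε) ε κ ∧
    Concl (fun k : {s : ℂ // IZ s} => (k : ℂ)) (fun k => (mz k : ℝ)) (PZ ε) ε κ ∧
    (∀ s, IZ s → 0 < mz s) ∧ (∀ s, IZ s → IZ (conj s)) ∧ (∀ s, IZ s → mz (conj s) = mz s) ∧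
    ((∃ B : ℝ, ∀ᶠ Y in atTop, EM (PZ ε) κ Y ≤ B) → ∀ s, IZ s → s.re = 1 / 2) := by
  obtain ⟨L, H, hr, hc⟩ := zeta_fd hD hC
  have hPc : Continuous (PZ ε) := by
    have h1 := Complex.continuous_re.comp (hEF L ε hε).1
    refine h1.congr fun y => ?_
    rw [Function.comp, zeta_PL hr hc, Complex.ofReal_re]
  have hP : Tendsto (fun y : ℝ => (PZ ε y : ℂ) - ∑ _i : Unit, PL L ε y) atTop (𝓝 0) := by
    refine tendsto_const_nhds.congr fun y => ?_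
    rw [Finset.univ_unique, Finset.sum_singleton, zeta_PL hr hc, sub_self]
  refine ⟨?_, ?_, fun s hs => ?_, fun s hs => H.cz () s hs, fun s hs => H.co () s hs, fun hB s hs => ?_⟩
  · exact concl_tr (K' := Σ s : {s : ℂ // IZ s}, Fin (mz s)) (ρ := fun k => (k.1 : ℂ)) (μ := fun _ => 1)
      (Equiv.uniqueSigma (fun _ : Unit => Σ s : {s : ℂ // IZ s}, Fin (mz s))) (fam_main hEF hZR hA H hε hκ hPc hP)
  · exact concl_tr (K' := {s : ℂ // IZ s}) (ρ := fun k => (k : ℂ)) (μ := fun k => (mz k : ℝ))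
      (Equiv.uniqueSigma (fun _ : Unit => {s : ℂ // IZ s})) (fam_dist hEF hZR hA H hε hκ hPc hP)
  · rw [show mz s = _ from H.o () s hs]
    exact (hZR L).1 _ ((H.z () _).2 hs)
  · exact Hyp.grh hL hκ (dist_hyp hEF hZR H hε hPc hP) hB ⟨(), ⟨s, hs⟩⟩

end Pool.Agent.N804.LI
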