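import Pool.Agent.N804.LI.Zeta

set_option autoImplicit false

/-! # Project LI: the zeta function, final forms -/

namespace Pool.Agent.N804.LI

open Filter Topology MeasureTheory Set
open scoped ComplexConjugate

/-- positive ordinates of critical zeros -/
def Gp : Set ℝ := {γ : ℝ | 0 < γ ∧ riemannZeta (1 / 2 + γ * Complex.I) = 0}

lemma IZ_crit {γ : ℝ} (h : riemannZeta (1 / 2 + γ * Complex.I) = 0) : IZ (1 / 2 + γ * Complex.I) := by
  refine ⟨h, ?_, ?_⟩ <;> norm_num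

lemma rh_iff : RiemannHypothesis ↔ ∀ s, IZ s → s.re = 1 / 2 := by
  constructor
  · intro h s hs
    refine h s hs.1 ?_ ?_
    · rintro ⟨n, hn⟩
      have := hs.2.1
      rw [hn] at this
      simp at this
      have h2 : (0 : ℝ) ≤ n := Nat.cast_nonneg n
      linarith
    · rintro rfl
      have := hs.2.2
      simp at this
  · intro h s hs htriv h1
    by_cases hre : 1 ≤ s.re
    · exact absurd hs (riemannZeta_ne_zero_of_one_le_re hre)
    push Not at hre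
    by_cases h0 : 0 < s.re
    · exact h s ⟨hs, h0, hre⟩
    exfalso
    push Not at h0
    -- functional equation
    have hz0 : s ≠ 0 := by
      rintro rfl
      rw [riemannZeta_zero] at hs
      norm_num at hs
    have h2 : riemannZeta (1 - s) ≠ 0 := riemannZeta_ne_zero_of_one_le_re (by simp; linarith)
    have hn : ∀ n : ℕ, 1 - s ≠ -n := by
      intro n hn
      have := congrArg Complex.re hn
      simp at this
      have h3 : (0 : ℝ) ≤ n := Nat.cast_nonneg n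
      linarith
    have h3 := riemannZeta_one_sub (s := 1 - s) hn (by
      intro h; apply hz0; linear_combination -h)
    rw [sub_sub_cancel, hs] at h3
    have h4 : Complex.Gamma (1 - s) ≠ 0 := Complex.Gamma_ne_zero hn
    have h5 : ((2 : ℂ) * Real.pi) ^ (-(1 - s)) ≠ 0 := by
      rw [Complex.cpow_ne_zero_iff]
      left
      simp [Real.pi_ne_zero]
    have h6 : Complex.cos (Real.pi * (1 - s) / 2) = 0 := by
      have h7 := h3.symm
      simp only [mul_eq_zero, h2, h4, h5, or_false, false_or] at h7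
      simpa using h7
    rw [Complex.cos_eq_zero_iff] at h6
    obtain ⟨k, hk⟩ := h6
    have hpi : (Real.pi : ℂ) ≠ 0 := by exact_mod_cast Real.pi_ne_zero
    have h8 : s = -2 * k := by
      have : (Real.pi : ℂ) * (1 - s) = (2 * k + 1) * Real.pi := by linear_combination 2 * hk
      have h9 : (1 - s) = 2 * k + 1 := by
        apply mul_left_cancel₀ hpi
        rw [this]; ring
      linear_combination -h9
    have h9 : s.re = -2 * k := by rw [h8]; simp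
    have hk1 : 0 < k := by
      have h10 : (0 : ℝ) ≤ k := by linarith
      rcases lt_or_eq_of_le (show (0 : ℤ) ≤ k by exact_mod_cast h10) with h | h
      · exact h
      · exfalso; apply hz0; rw [h8, ← h]; simp
    apply htriv
    refine ⟨(k - 1).toNat, ?_⟩
    have h11 : (((k - 1).toNat : ℤ) : ℂ) = ((k - 1 : ℤ) : ℂ) := by rw [Int.toNat_of_nonneg (by omega)]
    rw [Int.cast_natCast] at h11
    rw [h11, h8]
    push_cast
    ring

section
variable (hRH : ∀ s, IZ s → s.re = 1 / 2)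

include hRH in
lemma eq_line {s : ℂ} (hs : IZ s) : (1 / 2 : ℂ) + s.im * Complex.I = s := by
  apply Complex.ext
  · simp [hRH s hs]
  · simp

/-- positive nontrivial zeros and positive ordinates -/
noncomputable def ge (hRH : ∀ s, IZ s → s.re = 1 / 2) : {k : {s : ℂ // IZ s} // 0 < (k : ℂ).im} ≃ Gp where
  toFun k := ⟨(k : ℂ).im, k.2, by rw [eq_line hRH k.1.2]; exact k.1.2.1⟩
  invFun γ := ⟨⟨1 / 2 + (γ : ℝ) * Complex.I, IZ_crit γ.2.2⟩, by simpa using γ.2.1⟩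
  left_inv k := by
    apply Subtype.ext
    apply Subtype.ext
    exact eq_line hRH k.1.2
  right_inv γ := by
    apply Subtype.ext
    simp

end

lemma m0_zero {K : Type} {ρ : K → ℂ} {μ : K → ℝ} (h : ∀ k, IZ (ρ k)) : m0 ρ μ = 0 := by
  unfold m0
  refine (tsum_congr fun k => if_neg fun h1 => ?_).trans tsum_zero
  have := IZ_im (h k)
  rw [h1] at this
  simp at this

/-- the distinct form -/
theorem zeta_dist (hEF : S_EF) (hZR : S_ZR) (hA : S_ABS) (hL : S_LAN) (hD : S_DIR) (hC : S_CJ) {ε κ : ℝ}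
    (hε : 0 < ε) (hκ : 0 < κ) :
    ((RiemannHypothesis ∧ LinearIndependent ℚ (fun γ : Gp => (γ : ℝ))) ↔ ∀ δ : ℝ, 0 < δ → ∀ᶠ Y in atTop,
      EM (PZ ε) κ Y ≤ (∏' γ : Gp, I0 (2 * κ * (mz (1 / 2 + (γ : ℝ) * Complex.I) *
        Real.exp (-(ε ^ 2 * (γ : ℝ) ^ 2 / 2))))) + δ) ∧
    (RiemannHypothesis → LinearIndependent ℚ (fun γ : Gp => (γ : ℝ)) → Tendsto (EM (PZ ε) κ) atTop
      (𝓝 (∏' γ : Gp, I0 (2 * κ * (mz (1 / 2 + (γ : ℝ) * Complex.I) * Real.exp (-(ε ^ 2 * (γ : ℝ) ^ 2 / 2))))))) := by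
  obtain ⟨-, ⟨h1, h2⟩, -, -, -, hgrh⟩ := zeta_all hEF hZR hA hL hD hC hε hκ
  have hm : m0 (fun k : {s : ℂ // IZ s} => (k : ℂ)) (fun k => (mz k : ℝ)) = 0 := m0_zero fun k => k.2
  have hp : ∀ hRH : (∀ s, IZ s → s.re = 1 / 2), RH0 (fun k : {s : ℂ // IZ s} => (k : ℂ)) (fun k => (mz k : ℝ)) ε κ 0 =
      ∏' γ : Gp, I0 (2 * κ * (mz (1 / 2 + (γ : ℝ) * Complex.I) * Real.exp (-(ε ^ 2 * (γ : ℝ) ^ 2 / 2)))) := by
    intro hRH
    unfold RH0
    rw [mul_zero, Real.exp_zero, one_mul, ← (ge hRH).tprod_eq]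
    refine tprod_congr fun k => ?_
    show _ = I0 (2 * κ * (mz (1 / 2 + (((k : {s : ℂ // IZ s}) : ℂ).im : ℂ) * Complex.I) * _))
    rw [eq_line hRH k.1.2]
    rfl
  have hl : ∀ hRH : (∀ s, IZ s → s.re = 1 / 2),
      (LinearIndependent ℚ (fun k : {k : {s : ℂ // IZ s} // 0 < (k : ℂ).im} => ((k : {s : ℂ // IZ s}) : ℂ).im) ↔
        LinearIndependent ℚ (fun γ : Gp => (γ : ℝ))) := fun hRH =>
    linearIndependent_equiv (ge hRH) (f := fun γ : Gp => (γ : ℝ))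
  rw [rh_iff]
  refine ⟨⟨fun h δ hδ => ?_, fun h => ?_⟩, fun hRH hLI => ?_⟩
  · have h3 := (h1 0 hm.ge).1 ⟨fun k => h.1 k k.2, (hl h.1).2 h.2, hm⟩ δ hδ
    rwa [hp h.1] at h3
  · have hRH := hgrh ⟨_, h 1 one_pos⟩
    rw [← hp hRH] at h
    have h3 := (h1 0 hm.ge).2 h
    exact ⟨hRH, (hl hRH).1 h3.2.1⟩
  · have h3 := h2 (fun k => hRH k k.2) ((hl hRH).2 hLI)
    rwa [hm, hp hRH] at h3

/-- the form with simplicity -/
theorem zeta_simple (hEF : S_EF) (hZR : S_ZR) (hA : S_ABS) (hL : S_LAN) (hD : S_DIR) (hC : S_CJ) {ε κ : ℝ}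
    (hε : 0 < ε) (hκ : 0 < κ) :
    (RiemannHypothesis ∧ (∀ s, IZ s → mz s = 1) ∧ LinearIndependent ℚ (fun γ : Gp => (γ : ℝ))) ↔
      ∀ δ : ℝ, 0 < δ → ∀ᶠ Y in atTop, EM (PZ ε) κ Y ≤
        (∏' k : (Σ γ : Gp, Fin (mz (1 / 2 + (γ : ℝ) * Complex.I))),
          I0 (2 * κ * Real.exp (-(ε ^ 2 * (k.1 : ℝ) ^ 2 / 2)))) + δ := by
  obtain ⟨⟨h1, -⟩, -, hmp, hcj, hcm, hgrh⟩ := zeta_all hEF hZR hA hL hD hC hε hκ
  have hm : m0 (fun k : Σ s : {s : ℂ // IZ s}, Fin (mz s) => (k.1 : ℂ)) (fun _ => 1) = 0 := m0_zero fun k => k.1.2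
  have hp : ∀ hRH : (∀ s, IZ s → s.re = 1 / 2),
      RH0 (fun k : Σ s : {s : ℂ // IZ s}, Fin (mz s) => (k.1 : ℂ)) (fun _ => 1) ε κ 0 =
      ∏' k : (Σ γ : Gp, Fin (mz (1 / 2 + (γ : ℝ) * Complex.I))),
          I0 (2 * κ * Real.exp (-(ε ^ 2 * (k.1 : ℝ) ^ 2 / 2))) := by
    intro hRH
    let e1 : {k : Σ s : {s : ℂ // IZ s}, Fin (mz s) // 0 < (k.1 : ℂ).im} ≃
        Σ s : {k : {s : ℂ // IZ s} // 0 < (k : ℂ).im}, Fin (mz s) :=
      { toFun := fun k => ⟨⟨k.1.1, k.2⟩, k.1.2⟩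
        invFun := fun k => ⟨⟨k.1.1, k.2⟩, k.1.2⟩
        left_inv := fun k => rfl
        right_inv := fun k => rfl }
    let e2 : (Σ s : {k : {s : ℂ // IZ s} // 0 < (k : ℂ).im}, Fin (mz s)) ≃
        Σ γ : Gp, Fin (mz (1 / 2 + (γ : ℝ) * Complex.I)) :=
      Equiv.sigmaCongr (ge hRH) fun s => finCongr (by
        show mz _ = mz (1 / 2 + (((s : {s : ℂ // IZ s}) : ℂ).im : ℂ) * Complex.I)
        rw [eq_line hRH s.1.2])
    unfold RH0
    rw [mul_zero, Real.exp_zero, one_mul, ← (e1.trans e2).tprod_eq]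
    refine tprod_congr fun k => ?_
    show _ = I0 (2 * κ * Real.exp (-(ε ^ 2 * (k.1.1 : ℂ).im ^ 2 / 2)))
    rw [one_mul]
  have hl : ∀ hRH : (∀ s, IZ s → s.re = 1 / 2),
      (LinearIndependent ℚ (fun k : {k : {s : ℂ // IZ s} // 0 < (k : ℂ).im} => ((k : {s : ℂ // IZ s}) : ℂ).im) ↔
        LinearIndependent ℚ (fun γ : Gp => (γ : ℝ))) := fun hRH =>
    linearIndependent_equiv (ge hRH) (f := fun γ : Gp => (γ : ℝ))
  have hsl := simple_li (fun s : {s : ℂ // IZ s} => (s : ℂ).im) (fun s => mz s) (fun s => hmp s s.2)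
  have hs : (∀ s, IZ s → mz s = 1) ↔ ∀ z : {s : ℂ // IZ s}, 0 < (z : ℂ).im → mz z = 1 := by
    constructor
    · intro h z _
      exact h z z.2
    · intro h s hs
      rcases lt_or_gt_of_ne (IZ_im hs) with h1 | h1
      · rw [← hcm s hs]
        refine h ⟨conj s, hcj s hs⟩ ?_
        show 0 < (conj s).im
        rw [Complex.conj_im]; linarith
      · exact h ⟨s, hs⟩ h1
  rw [rh_iff]
  refine ⟨fun h δ hδ => ?_, fun h => ?_⟩
  · have h3 := (h1 0 hm.ge).1 ⟨fun k => h.1 k.1 k.1.2, hsl.2 ⟨hs.1 h.2.1, (hl h.1).2 h.2.2⟩, hm⟩ δ hδ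
    rwa [hp h.1] at h3
  · have hRH := hgrh ⟨_, h 1 one_pos⟩
    rw [← hp hRH] at h
    have h3 := (h1 0 hm.ge).2 h
    have h4 := hsl.1 h3.2.1
    exact ⟨hRH, hs.2 h4.1, (hl hRH).1 h4.2⟩

end Pool.Agent.N804.LI
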